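import Mathlib.Topology.Sheaves.Presheaf
import Mathlib.Tactic.Monotonicity.Lemmas
import Mathlib.Algebra.Field.ZMod
import Mathlib.MeasureTheory.Measure.Lebesgue.EqHaar
import Mathlib.Algebra.Order.Archimedean.Real.Hom
import Mathlib.Combinatorics.SimpleGraph.Basic
import Mathlib.Analysis.Matrix.Order
import Mathlib.LinearAlgebra.Matrix.AbsoluteValue
import Mathlib.RingTheory.PiTensorProduct
import Mathlib.Order.CompletePartialOrder
import Mathlib.RingTheory.TotallySplit
import Mathlib.Tactic.Algebra.Basic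

-- ======== part 0: formerly Pool.Agent.MP_c36b31_co.Rado
section MrgPart0

/-! Rado's theorem on independent transversals of families of vectors. -/

namespace Pool.Agent.MP_c36b31_co

open Finset Module

theorem rado {ι κ V : Type*} [Fintype ι] [AddCommGroup V] [Module ℝ V] [FiniteDimensional ℝ V]
    (v : ι → κ → V) (S : ι → Finset κ)
    (h : ∀ J : Finset ι, J.card ≤
      finrank ℝ (Submodule.span ℝ {x | ∃ j ∈ J, ∃ k ∈ S j, v j k = x})) :
    ∃ c : ι → κ, LinearIndependent ℝ fun j => v j (c j) := by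
  classical
  induction hn : ∑ j, (S j).card using Nat.strong_induction_on generalizing S with
  | _ n ih =>
  by_cases h1 : ∀ j, (S j).card ≤ 1
  · have hne : ∀ j, (S j).Nonempty := by
      intro j
      by_contra he
      have h2 := h {j}
      have : {x | ∃ j' ∈ ({j} : Finset ι), ∃ k ∈ S j', v j' k = x} = ∅ := by
        ext x
        simp [not_nonempty_iff_eq_empty.1 he]
      rw [this, Submodule.span_empty, finrank_bot] at h2
      simp at h2
    choose c hc using hne
    refine ⟨c, linearIndependent_iff_card_le_finrank_span.2 ?_⟩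
    refine (h univ).trans (Submodule.finrank_mono (Submodule.span_mono ?_))
    rintro x ⟨j, -, k, hk, rfl⟩
    exact ⟨j, by rw [card_le_one.1 (h1 j) k hk _ (hc j)]⟩
  push Not at h1
  obtain ⟨j0, hj0⟩ := h1
  obtain ⟨a, ha, b, hb, hab⟩ := one_lt_card.1 hj0
  have step : ∀ a ∈ S j0, (∃ c : ι → κ, LinearIndependent ℝ fun j => v j (c j)) ∨
      ∃ J : Finset ι, j0 ∈ J ∧ finrank ℝ (Submodule.span ℝ
        {x | ∃ j ∈ J, ∃ k ∈ Function.update S j0 ((S j0).erase a) j, v j k = x}) < J.card := by
    intro a ha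
    by_cases hc : ∀ J : Finset ι, J.card ≤ finrank ℝ (Submodule.span ℝ
        {x | ∃ j ∈ J, ∃ k ∈ Function.update S j0 ((S j0).erase a) j, v j k = x})
    · left
      refine ih _ ?_ _ hc rfl
      rw [← hn]
      refine sum_lt_sum (fun j _ => ?_) ⟨j0, mem_univ _, ?_⟩
      · by_cases hj : j = j0
        · subst hj; simp [card_erase_le]
        · rw [Function.update_of_ne hj]
      · simpa using card_erase_lt_of_mem ha
    · right
      push Not at hc
      obtain ⟨J, hJ⟩ := hc
      refine ⟨J, ?_, hJ⟩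
      by_contra hj
      refine absurd ((h J).trans (Submodule.finrank_mono (Submodule.span_mono ?_))) (not_le.2 hJ)
      rintro x ⟨j, hjJ, k, hk, rfl⟩
      exact ⟨j, hjJ, k, by rwa [Function.update_of_ne (fun e : j = j0 => hj (e ▸ hjJ))], rfl⟩
  rcases step a ha with h' | ⟨Ja, hja, hJa⟩
  · exact h'
  rcases step b hb with h' | ⟨Jb, hjb, hJb⟩
  · exact h'
  exfalso
  set Ua := Submodule.span ℝ
    {x | ∃ j ∈ Ja, ∃ k ∈ Function.update S j0 ((S j0).erase a) j, v j k = x}
  set Ub := Submodule.span ℝ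
    {x | ∃ j ∈ Jb, ∃ k ∈ Function.update S j0 ((S j0).erase b) j, v j k = x}
  have e1 : (Ja ∪ Jb).card ≤ finrank ℝ ↥(Ua ⊔ Ub) := by
    refine (h _).trans (Submodule.finrank_mono (Submodule.span_le.2 ?_))
    rintro x ⟨j, hj, k, hk, rfl⟩
    by_cases hjj : j = j0
    · subst hjj
      by_cases hka : k = a
      · exact Submodule.mem_sup_right (Submodule.subset_span
          ⟨j, hjb, k, by simp [hka, hab, ha], rfl⟩)
      · exact Submodule.mem_sup_left (Submodule.subset_span ⟨j, hja, k, by simp [hka, hk], rfl⟩)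
    · rcases mem_union.1 hj with hj | hj
      · exact Submodule.mem_sup_left (Submodule.subset_span
          ⟨j, hj, k, by rwa [Function.update_of_ne hjj], rfl⟩)
      · exact Submodule.mem_sup_right (Submodule.subset_span
          ⟨j, hj, k, by rwa [Function.update_of_ne hjj], rfl⟩)
  have e2 : ((Ja ∩ Jb).erase j0).card ≤ finrank ℝ ↥(Ua ⊓ Ub) := by
    refine (h _).trans (Submodule.finrank_mono (Submodule.span_le.2 ?_))
    rintro x ⟨j, hj, k, hk, rfl⟩
    simp only [mem_erase, mem_inter] at hj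
    exact ⟨Submodule.subset_span ⟨j, hj.2.1, k, by rwa [Function.update_of_ne hj.1], rfl⟩,
      Submodule.subset_span ⟨j, hj.2.2, k, by rwa [Function.update_of_ne hj.1], rfl⟩⟩
  have e3 := Submodule.finrank_sup_add_finrank_inf_eq Ua Ub
  have e4 := card_union_add_card_inter Ja Jb
  have e5 := card_erase_add_one (mem_inter.2 ⟨hja, hjb⟩)
  omega

end Pool.Agent.MP_c36b31_co

end MrgPart0

-- ======== part 1: formerly Pool.Agent.MP_c36b31_co.Mixed
section MrgPart1

/-! A positive lower bound for mixed discriminants of doubly stochastic tuples. -/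

namespace Pool.Agent.MP_c36b31_co

open Finset Module Matrix

variable {d : ℕ}

/-- sum of squared determinants over all choices of one vector of each colour -/
def md {κ : Type*} [Fintype κ] (b : Fin d → κ → Fin d → ℝ) : ℝ :=
  ∑ c : Fin d → κ, (Matrix.of fun j => b j (c j)).det ^ 2

theorem md_eq {κ : Type*} [Fintype κ] (b : Fin d → κ → Fin d → ℝ) :
    md b = ∑ σ : Equiv.Perm (Fin d), ∑ τ : Equiv.Perm (Fin d),
      ((Equiv.Perm.sign σ : ℤ) : ℝ) * ((Equiv.Perm.sign τ : ℤ) : ℝ) *
        ∏ j, ∑ k, b j k (σ j) * b j k (τ j) := by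
  classical
  unfold md
  simp only [prod_univ_sum, Fintype.piFinset_univ, mul_sum]
  rw [sum_comm]
  refine Eq.trans ?_ (sum_congr rfl fun σ _ => sum_comm)
  rw [sum_comm]
  refine sum_congr rfl fun c _ => ?_
  rw [← det_transpose, det_apply', sq, sum_mul_sum]
  refine sum_congr rfl fun σ _ => sum_congr rfl fun τ _ => ?_
  simp only [transpose_apply, of_apply, prod_mul_distrib]
  ring

/-- the isotropy conditions -/
def Iso {κ : Type*} [Fintype κ] (b : Fin d → κ → Fin d → ℝ) : Prop :=
  (∀ j, ∑ k, b j k ⬝ᵥ b j k = 1) ∧ ∀ v : Fin d → ℝ, v ⬝ᵥ v = 1 → ∑ j, ∑ k, (v ⬝ᵥ b j k) ^ 2 ≤ 1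

theorem md_pos {κ : Type*} [Fintype κ] (b : Fin d → κ → Fin d → ℝ) (h : Iso b) : 0 < md b := by
  obtain ⟨c, hc⟩ := rado (fun j k => (WithLp.toLp 2 (b j k) : EuclideanSpace ℝ (Fin d)))
    (fun _ => univ) (by
      intro J
      set U := Submodule.span ℝ {x : EuclideanSpace ℝ (Fin d) |
        ∃ j ∈ J, ∃ k ∈ (univ : Finset κ), WithLp.toLp 2 (b j k) = x} with hU
      let e := stdOrthonormalBasis ℝ U
      have hmem : ∀ j ∈ J, ∀ k, (WithLp.toLp 2 (b j k) : EuclideanSpace ℝ (Fin d)) ∈ U :=
        fun j hj k => Submodule.subset_span ⟨j, hj, k, mem_univ _, rfl⟩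
      have h1 : ∀ j ∈ J, ∀ k, b j k ⬝ᵥ b j k = ∑ l, ((e l).1.ofLp ⬝ᵥ b j k) ^ 2 := by
        intro j hj k
        have := e.sum_sq_inner_right ⟨_, hmem j hj k⟩
        rw [← real_inner_self_eq_norm_sq] at this
        simp only [Submodule.coe_inner, EuclideanSpace.inner_eq_star_dotProduct, star_trivial]
          at this
        rw [← this]
        exact sum_congr rfl fun l _ => by rw [dotProduct_comm]
      have h2 : ∀ l, (e l).1.ofLp ⬝ᵥ (e l).1.ofLp = 1 := by
        intro l
        have := real_inner_self_eq_norm_sq (e l)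
        rw [e.orthonormal.1 l] at this
        simpa only [Submodule.coe_inner, EuclideanSpace.inner_eq_star_dotProduct, star_trivial,
          one_pow] using this
      have : (J.card : ℝ) ≤ finrank ℝ U := by
        calc (J.card : ℝ) = ∑ j ∈ J, ∑ k, b j k ⬝ᵥ b j k := by simp [h.1]
          _ = ∑ j ∈ J, ∑ k, ∑ l, ((e l).1.ofLp ⬝ᵥ b j k) ^ 2 :=
            sum_congr rfl fun j hj => sum_congr rfl fun k _ => h1 j hj k
          _ ≤ ∑ j, ∑ k, ∑ l, ((e l).1.ofLp ⬝ᵥ b j k) ^ 2 :=
            sum_le_sum_of_subset_of_nonneg (subset_univ _) fun j _ _ => by positivity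
          _ = ∑ l, ∑ j, ∑ k, ((e l).1.ofLp ⬝ᵥ b j k) ^ 2 := by
            rw [sum_comm (s := univ) (t := univ) (f := fun l j =>
              ∑ k, ((e l).1.ofLp ⬝ᵥ b j k) ^ 2)]
            exact sum_congr rfl fun j _ => sum_comm
          _ ≤ ∑ _l : Fin (finrank ℝ U), (1 : ℝ) := sum_le_sum fun l _ => h.2 _ (h2 l)
          _ = finrank ℝ U := by simp
      exact_mod_cast this)
  have hli : LinearIndependent ℝ (Matrix.of fun j => b j (c j)).row :=
    LinearIndependent.of_comp (WithLp.linearEquiv 2 ℝ (Fin d → ℝ)).symm.toLinearMap hc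
  have hdet : (Matrix.of fun j => b j (c j)).det ≠ 0 :=
    ((Matrix.isUnit_iff_isUnit_det _).1 (linearIndependent_rows_iff_isUnit.1 hli)).ne_zero
  exact sum_pos' (fun c _ => sq_nonneg _) ⟨c, mem_univ _, by positivity⟩

open scoped MatrixOrder in
theorem exists_square {κ : Type*} [Fintype κ] (b : κ → Fin d → ℝ) :
    ∃ B : Fin d → Fin d → ℝ, ∀ x y, ∑ k, b k x * b k y = ∑ k, B k x * B k y := by
  obtain ⟨B, hB⟩ := CStarAlgebra.nonneg_iff_eq_star_mul_self.mp
    (posSemidef_conjTranspose_mul_self (Matrix.of b)).nonneg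
  refine ⟨B, fun x y => ?_⟩
  have := congrFun (congrFun hB x) y
  simpa [Matrix.mul_apply] using this

theorem mixed_lower (d : ℕ) : ∃ c : ℝ, 0 < c ∧ ∀ (κ : Type) [Fintype κ]
    (b : Fin d → κ → Fin d → ℝ), Iso b → c ≤ md b := by
  let K : Set (Fin d → Fin d → Fin d → ℝ) := {b | Iso b}
  have hK : IsCompact K := by
    refine (isCompact_closedBall (0 : Fin d → Fin d → Fin d → ℝ) 1).of_isClosed_subset ?_ ?_
    · have : K = (⋂ j, {b | ∑ k, b j k ⬝ᵥ b j k = 1}) ∩
          ⋂ v : Fin d → ℝ, ⋂ _ : v ⬝ᵥ v = 1, {b | ∑ j, ∑ k, (v ⬝ᵥ b j k) ^ 2 ≤ 1} := by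
        ext b; simp [K, Iso]
      rw [this]
      refine (isClosed_iInter fun j => isClosed_eq ?_ continuous_const).inter
        (isClosed_iInter fun v => isClosed_iInter fun _ => isClosed_le ?_ continuous_const)
      · unfold dotProduct; fun_prop
      · unfold dotProduct; fun_prop
    · intro b hb
      simp only [mem_closedBall_zero_iff, pi_norm_le_iff_of_nonneg zero_le_one, Real.norm_eq_abs]
      intro j k x
      rw [← sq_le_one_iff_abs_le_one, ← hb.1 j, sq]
      calc b j k x * b j k x ≤ b j k ⬝ᵥ b j k :=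
            single_le_sum (f := fun x => b j k x * b j k x) (fun _ _ => mul_self_nonneg _)
              (mem_univ x)
        _ ≤ _ := single_le_sum (f := fun k => b j k ⬝ᵥ b j k)
              (fun k _ => sum_nonneg fun _ _ => mul_self_nonneg _) (mem_univ k)
  have hcont : Continuous fun b : Fin d → Fin d → Fin d → ℝ => md b := by
    simp only [md_eq]
    fun_prop
  obtain ⟨c, hc, hcK⟩ := hK.exists_forall_le' (f := fun b => md b) hcont.continuousOn
    (a := 0) (fun b hb => md_pos b hb)
  refine ⟨c, hc, fun κ _ b hb => ?_⟩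
  choose B hB using fun j => exists_square (b j)
  have hq : ∀ j (v : Fin d → ℝ), ∑ k, (v ⬝ᵥ b j k) ^ 2 = ∑ k, (v ⬝ᵥ B j k) ^ 2 := by
    have e : ∀ (κ : Type) [Fintype κ] (b : κ → Fin d → ℝ) (v : Fin d → ℝ),
        ∑ k, (v ⬝ᵥ b k) ^ 2 = ∑ x, ∑ y, v x * v y * ∑ k, b k x * b k y := by
      intro κ _ b v
      simp only [dotProduct, sq, sum_mul_sum]
      simp only [mul_sum]
      rw [sum_comm]
      refine sum_congr rfl fun x _ => ?_
      rw [sum_comm]
      exact sum_congr rfl fun y _ => sum_congr rfl fun k _ => by ring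
    intro j v
    simp only [e, hB]
  have hBK : B ∈ K := by
    refine ⟨fun j => ?_, fun v hv => ?_⟩
    · rw [← hb.1 j]
      simp only [dotProduct]
      rw [sum_comm, sum_comm (f := fun k x => b j k x * b j k x)]
      simp only [hB]
    · simpa only [hq] using hb.2 v hv
  refine (hcK B hBK).trans (le_of_eq ?_)
  simp only [md_eq, hB]

end Pool.Agent.MP_c36b31_co

end MrgPart1

-- ======== part 2: formerly Pool.Agent.MP_c36b31_co.Position
section MrgPart2

/-! Isotropic position for a finite family of invertible matrices. -/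

namespace Pool.Agent.MP_c36b31_co

open Finset Module Matrix

variable {d : ℕ}

/-- squared Frobenius norm -/
def fr (M : Matrix (Fin d) (Fin d) ℝ) : ℝ := ∑ i, M i ⬝ᵥ M i

theorem fr_nonneg (M : Matrix (Fin d) (Fin d) ℝ) : 0 ≤ fr M :=
  sum_nonneg fun _ _ => sum_nonneg fun _ _ => mul_self_nonneg _

theorem abs_le_sqrt_fr (M : Matrix (Fin d) (Fin d) ℝ) (i x : Fin d) : |M i x| ≤ √(fr M) := by
  apply Real.abs_le_sqrt
  calc M i x ^ 2 = M i x * M i x := sq _
    _ ≤ M i ⬝ᵥ M i := single_le_sum (f := fun x => M i x * M i x) (fun _ _ => mul_self_nonneg _)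
        (mem_univ x)
    _ ≤ _ := single_le_sum (f := fun i => M i ⬝ᵥ M i)
        (fun k _ => sum_nonneg fun _ _ => mul_self_nonneg _) (mem_univ i)

theorem abs_det_le (M : Matrix (Fin d) (Fin d) ℝ) {x : ℝ} (h : ∀ i j, |M i j| ≤ x) :
    |M.det| ≤ d.factorial * x ^ d := by
  simpa using Matrix.det_le (abv := AbsoluteValue.abs) h

theorem fr_lower (hd : 0 < d) {δ : ℝ} (hδ : 0 < δ) :
    ∃ μ : ℝ, 0 < μ ∧ ∀ M : Matrix (Fin d) (Fin d) ℝ, δ ≤ |M.det| → μ ≤ √(fr M) := by
  have hf : (0 : ℝ) < d.factorial := by positivity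
  refine ⟨min 1 (δ / d.factorial), by positivity, fun M hM => ?_⟩
  by_contra hcon
  rw [not_le, lt_min_iff, lt_div_iff₀ hf] at hcon
  have h1 := abs_det_le M (abs_le_sqrt_fr M)
  have h2 : √(fr M) ^ d ≤ √(fr M) :=
    pow_le_of_le_one (Real.sqrt_nonneg _) hcon.1.le hd.ne'
  nlinarith [hcon.2]

theorem sum_le_of_prod {ι : Type*} [Fintype ι] (q : ι → ℝ) (s : ℕ)
    (h1 : ∀ i, q i ≤ 1) (h : ∀ u : ℝ, 0 < u → u < 1 → (1 - u) ^ s ≤ ∏ i, (1 - u * q i)) :
    ∑ i, q i ≤ s := by
  by_contra hcon
  rw [not_le] at hcon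
  set S := ∑ i, q i with hS
  have hs : (0 : ℝ) ≤ s := by positivity
  have hS0 : 0 < S := by linarith
  have hD : 0 < 2 * (s * S + S) := by positivity
  set u := (S - s) / (2 * (s * S + S)) with hu
  have hu0 : 0 < u := div_pos (by linarith) hD
  have hu' : u * (2 * (s * S + S)) = S - s := div_mul_cancel₀ _ hD.ne'
  have hu1 : u < 1 := by
    rw [hu, div_lt_one hD]; nlinarith
  have e1 : 1 - s * u ≤ (1 - u) ^ s := by
    have := one_add_mul_le_pow (a := -u) (by linarith) s
    simpa [sub_eq_add_neg] using this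
  have e2 : ∏ i, (1 - u * q i) ≤ Real.exp (-(u * S)) := by
    rw [hS, mul_sum, ← sum_neg_distrib, Real.exp_sum]
    refine prod_le_prod (fun i _ => by nlinarith [h1 i]) fun i _ => ?_
    linarith [Real.add_one_le_exp (-(u * q i))]
  have e3 : Real.exp (-(u * S)) * (u * S + 1) ≤ 1 := by
    calc _ ≤ Real.exp (-(u * S)) * Real.exp (u * S) :=
          mul_le_mul_of_nonneg_left (Real.add_one_le_exp _) (Real.exp_pos _).le
      _ = 1 := by rw [← Real.exp_add]; simp
  have e4 : (1 - s * u) * (u * S + 1) ≤ 1 :=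
    le_trans (mul_le_mul_of_nonneg_right (e1.trans ((h u hu0 hu1).trans e2)) (by positivity)) e3
  have e5 : u * (S - s - s * S * u) ≤ 0 := by nlinarith
  have e6 : S - s - s * S * u ≤ 0 := by
    by_contra h6
    nlinarith [mul_pos hu0 (not_le.1 h6)]
  nlinarith [mul_pos hu0 hS0, mul_nonneg (mul_nonneg hs hS0.le) hu0.le]

theorem exists_min {ι : Type*} [Fintype ι] [Nonempty ι] (hd : 0 < d)
    (a : ι → Matrix (Fin d) (Fin d) ℝ) {δ : ℝ} (hδ : 0 < δ) (ha : ∀ k, δ ≤ |(a k).det|) :
    ∃ g : Matrix (Fin d) (Fin d) ℝ, g.det = 1 ∧ ∀ g' : Matrix (Fin d) (Fin d) ℝ, g'.det = 1 →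
      ∏ k, fr (a k * g) ≤ ∏ k, fr (a k * g') := by
  classical
  obtain ⟨μ, hμ, hlow⟩ := fr_lower hd hδ
  obtain ⟨k0⟩ := ‹Nonempty ι›
  let Φ : Matrix (Fin d) (Fin d) ℝ → ℝ := fun g => ∏ k, fr (a k * g)
  have hΦ : Continuous Φ := by
    refine continuous_finsetProd _ fun k _ => ?_
    simp only [fr, dotProduct, Matrix.mul_apply]
    fun_prop
  let G : Set (Matrix (Fin d) (Fin d) ℝ) := {g | g.det = 1 ∧ Φ g ≤ Φ 1}
  have hG : IsCompact G := by
    have hC : IsCompact (X := Matrix (Fin d) (Fin d) ℝ)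
        (Metric.closedBall (α := Fin d → Fin d → ℝ) 0 √(Φ 1 / (μ ^ 2) ^ (univ.erase k0).card)) :=
      isCompact_closedBall (0 : Fin d → Fin d → ℝ) _
    refine (hC.image (f := fun M => (a k0)⁻¹ * M)
      (continuous_const.matrix_mul continuous_id)).of_isClosed_subset
      ((isClosed_eq continuous_id.matrix_det continuous_const).inter
        (isClosed_le hΦ continuous_const)) ?_
    rintro g ⟨hg1, hg2⟩
    have hu : IsUnit (a k0).det := (abs_pos.1 (hδ.trans_le (ha k0))).isUnit
    refine ⟨a k0 * g, ?_, by simp only; rw [← Matrix.mul_assoc, nonsing_inv_mul _ hu, Matrix.one_mul]⟩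
    have hb : fr (a k0 * g) ≤ Φ 1 / (μ ^ 2) ^ (univ.erase k0).card := by
      rw [le_div_iff₀ (by positivity)]
      refine le_trans ?_ hg2
      simp only [Φ]
      rw [← mul_prod_erase _ _ (mem_univ k0), ← prod_const]
      refine mul_le_mul_of_nonneg_left (prod_le_prod (fun _ _ => by positivity) fun k _ => ?_)
        (fr_nonneg _)
      exact (Real.le_sqrt hμ.le (fr_nonneg _)).1 (hlow _ (by rw [det_mul, hg1, mul_one]; exact ha k))
    refine (mem_closedBall_zero_iff (E := Fin d → Fin d → ℝ)).2 ?_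
    simp only [pi_norm_le_iff_of_nonneg (Real.sqrt_nonneg _), Real.norm_eq_abs]
    exact fun i x => (abs_le_sqrt_fr _ i x).trans (Real.sqrt_le_sqrt hb)
  obtain ⟨g, hg, hmin⟩ := hG.exists_isMinOn ⟨1, det_one, le_rfl⟩ hΦ.continuousOn
  refine ⟨g, hg.1, fun g' hg' => ?_⟩
  by_cases h : Φ g' ≤ Φ 1
  · exact hmin (⟨hg', h⟩ : g' ∈ G)
  · exact hg.2.trans (not_le.1 h).le

theorem iso_position {s : ℕ} (hd : 0 < d) (hs : 0 < s)
    (a : Fin d × Fin s → Matrix (Fin d) (Fin d) ℝ) {δ : ℝ} (hδ : 0 < δ)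
    (ha : ∀ k, δ ≤ |(a k).det|) :
    ∃ g : Matrix (Fin d) (Fin d) ℝ, g.det = 1 ∧ ∀ v : Fin d → ℝ, v ⬝ᵥ v = 1 →
      ∑ k, (∑ i, (v ⬝ᵥ (a k * g) i) ^ 2) / fr (a k * g) ≤ s := by
  have : Nonempty (Fin d × Fin s) := ⟨(⟨0, hd⟩, ⟨0, hs⟩)⟩
  obtain ⟨g, hg, hmin⟩ := exists_min hd a hδ ha
  obtain ⟨μ, hμ, hlow⟩ := fr_lower hd hδ
  have hpos : ∀ k, 0 < fr (a k * g) := fun k =>
    Real.sqrt_pos.1 (hμ.trans_le (hlow _ (by rw [det_mul, hg, mul_one]; exact ha k)))
  refine ⟨g, hg, fun v hv => sum_le_of_prod _ s (fun k => ?_) fun u hu0 hu1 => ?_⟩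
  · rw [div_le_one (hpos k)]
    refine sum_le_sum fun i _ => ?_
    have := sum_mul_sq_le_sq_mul_sq univ v ((a k * g) i)
    simp only [sq] at this ⊢
    simp only [dotProduct] at hv ⊢
    rwa [hv, one_mul] at this
  · set w := √(1 - u) with hw
    have hw0 : 0 < w := Real.sqrt_pos.2 (by linarith)
    have hw2 : w ^ 2 = 1 - u := Real.sq_sqrt (by linarith)
    set c := w⁻¹ ^ ((d : ℝ)⁻¹) with hc
    have hcd : c ^ d = w⁻¹ := Real.rpow_inv_natCast_pow (by positivity) hd.ne'
    let h : Matrix (Fin d) (Fin d) ℝ := c • (1 + vecMulVec ((w - 1) • v) v)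
    have hdet : h.det = 1 := by
      rw [det_smul, vecMulVec_eq Unit, det_one_add_replicateCol_mul_replicateRow,
        dotProduct_smul, hv, Fintype.card_fin, hcd]
      field_simp
      simp
    have hfr : ∀ M : Matrix (Fin d) (Fin d) ℝ,
        fr (M * h) = c ^ 2 * (fr M - u * ∑ i, (v ⬝ᵥ M i) ^ 2) := by
      intro M
      simp only [fr, mul_sum, ← sum_sub_distrib]
      refine sum_congr rfl fun i _ => ?_
      have e : (M * h) i = c • (M i + ((w - 1) * (v ⬝ᵥ M i)) • v) := by
        funext x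
        rw [Matrix.mul_smul, Matrix.mul_add, Matrix.mul_one]
        simp only [Matrix.smul_apply, Matrix.add_apply,
          Pi.smul_apply, Pi.add_apply, smul_eq_mul, Matrix.mul_apply, vecMulVec_apply, dotProduct,
          mul_sum, sum_mul]
        congr 2
        exact sum_congr rfl fun y _ => by ring
      rw [e]
      simp only [smul_dotProduct, dotProduct_smul, add_dotProduct, dotProduct_add, smul_eq_mul, hv,
        dotProduct_comm (M i) v]
      linear_combination (c ^ 2 * (v ⬝ᵥ M i) ^ 2) * hw2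
    have key := hmin (g * h) (by rw [det_mul, hg, hdet, mul_one])
    simp only [← Matrix.mul_assoc, hfr] at key
    have e2 : ∏ k, c ^ 2 * (fr (a k * g) - u * ∑ i, (v ⬝ᵥ (a k * g) i) ^ 2) =
        ((1 - u) ^ s)⁻¹ * ((∏ k, fr (a k * g)) *
          ∏ k, (1 - u * ((∑ i, (v ⬝ᵥ (a k * g) i) ^ 2) / fr (a k * g)))) := by
      rw [prod_mul_distrib, ← prod_mul_distrib (f := fun k => fr (a k * g))]
      congr 1
      · rw [prod_const, card_univ, Fintype.card_prod, Fintype.card_fin, Fintype.card_fin, ← hw2,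
          ← pow_mul, ← pow_mul, ← inv_pow, ← hcd, ← pow_mul]
        congr 1
        ring
      · refine prod_congr rfl fun k _ => ?_
        field_simp [(hpos k).ne']
    have hP : 0 < ∏ k, fr (a k * g) := prod_pos fun k _ => hpos k
    have hq : 0 < (1 - u) ^ s := pow_pos (by linarith) _
    rw [e2, inv_mul_eq_div, le_div_iff₀ hq] at key
    exact le_of_mul_le_mul_left key hP

end Pool.Agent.MP_c36b31_co

end MrgPart2

-- ======== part 3: formerly Pool.Agent.MP_c36b31_co.Poly1
section MrgPart3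

/-! A bounded one dimensional polytope in general position has zero or two tight constraints. -/

namespace Pool.Agent.MP_c36b31_co

open Finset

section Poly1

variable {V C : Type*} [AddCommGroup V] [Module ℝ V]

/-- moving in a direction until the first constraint becomes tight -/
theorem exists_step (Cs : Finset C) (α : C → ℝ) (lam : C → V →ₗ[ℝ] ℝ) (v w : V)
    (hv : ∀ c ∈ Cs, 0 ≤ α c + lam c v) (hw : ∃ c ∈ Cs, lam c w < 0) :
    ∃ s : ℝ, ∃ c ∈ Cs, lam c w < 0 ∧ α c + lam c (v + s • w) = 0 ∧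
      ∀ c' ∈ Cs, 0 ≤ α c' + lam c' (v + s • w) := by
  classical
  obtain ⟨c0, hc0, hc0w⟩ := hw
  have hne : (Cs.filter fun c => lam c w < 0).Nonempty := ⟨c0, by simp [hc0, hc0w]⟩
  obtain ⟨c, hc, hmin⟩ := Finset.exists_min_image _
    (fun c => (α c + lam c v) / (-lam c w)) hne
  rw [mem_filter] at hc
  have hpos : 0 < -lam c w := by linarith [hc.2]
  have hs : 0 ≤ (α c + lam c v) / (-lam c w) := div_nonneg (hv c hc.1) hpos.le
  refine ⟨(α c + lam c v) / (-lam c w), c, hc.1, hc.2, ?_, ?_⟩
  · rw [map_add, map_smul, smul_eq_mul]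
    field_simp [hpos.ne']
    have : lam c w ≠ 0 := hc.2.ne
    field_simp
    ring
  · intro c' hc'
    rw [map_add, map_smul, smul_eq_mul]
    by_cases h : lam c' w < 0
    · have h1 := hmin c' (by simp [hc', h])
      have hpos' : 0 < -lam c' w := by linarith
      rw [le_div_iff₀ hpos'] at h1
      linarith
    · have := mul_nonneg hs (not_lt.1 h)
      linarith [hv c' hc']

open Classical in
theorem even_tight (Cs : Finset C) (α : C → ℝ) (lam : C → V →ₗ[ℝ] ℝ) (A : Set V)
    (L : Submodule ℝ V) (hA : ∀ v ∈ A, ∀ w ∈ L, v + w ∈ A) (hA' : ∀ v ∈ A, ∀ v' ∈ A, v - v' ∈ L)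
    (h1 : ∃ w ∈ L, w ≠ 0) (h2 : ∀ w ∈ L, w ≠ 0 → ∃ c ∈ Cs, lam c w < 0)
    (h3 : ∀ v ∈ A, (∀ c ∈ Cs, 0 ≤ α c + lam c v) → ∀ c ∈ Cs, ∀ c' ∈ Cs,
      α c + lam c v = 0 → α c' + lam c' v = 0 → c = c') :
    Even (Cs.filter fun c => ∃ v ∈ A, (∀ c' ∈ Cs, 0 ≤ α c' + lam c' v) ∧ α c + lam c v = 0).card := by
  by_cases hP : ∃ v ∈ A, ∀ c' ∈ Cs, 0 ≤ α c' + lam c' v
  swap
  · rw [Finset.filter_eq_empty_iff.2]
    · simp
    · rintro c - ⟨v, hv, hf, -⟩
      exact hP ⟨v, hv, hf⟩
  obtain ⟨v0, hv0, hf0⟩ := hP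
  obtain ⟨w, hwL, hw0⟩ := h1
  -- a tight constraint is injective on the directions
  have inj : ∀ v ∈ A, (∀ c' ∈ Cs, 0 ≤ α c' + lam c' v) → ∀ c ∈ Cs, α c + lam c v = 0 →
      ∀ u ∈ L, lam c u = 0 → u = 0 := by
    intro v hv hf c hc ht u hu hcu
    by_contra hne
    obtain ⟨s, c', hc', hlt, ht', hf'⟩ := exists_step Cs α lam v u hf (h2 u hu hne)
    have := h3 _ (hA v hv _ (L.smul_mem s hu)) hf' c hc c' hc'
      (by rw [map_add, map_smul, hcu]; simpa using ht) ht'
    rw [← this] at hlt
    exact hlt.ne hcu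
  -- uniqueness of the tight constraint with a given sign
  have uniq : ∀ u ∈ L, ∀ v ∈ A, ∀ v' ∈ A, (∀ c' ∈ Cs, 0 ≤ α c' + lam c' v) →
      (∀ c' ∈ Cs, 0 ≤ α c' + lam c' v') → ∀ c ∈ Cs, ∀ c' ∈ Cs, α c + lam c v = 0 →
      α c' + lam c' v' = 0 → lam c u < 0 → lam c' u < 0 → c = c' := by
    intro u hu v hv v' hv' hf hf' c hc c' hc' ht ht' hl hl'
    have hd := hA' v hv v' hv'
    set s := lam c (v - v') / lam c u with hs
    have hmul : v - v' = s • u := by
      have := inj v hv hf c hc ht (v - v' - s • u) (L.sub_mem hd (L.smul_mem s hu))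
        (by rw [map_sub (lam c) (v - v'), map_smul, smul_eq_mul, hs, div_mul_cancel₀ _ hl.ne]; ring)
      exact sub_eq_zero.1 this
    have e1 : v = v' + s • u := by rw [← hmul]; abel
    have e2 : v' = v + (-s) • u := by rw [neg_smul, ← hmul]; abel
    have a1 := hf c' hc'
    have a2 := hf' c hc
    rw [e1, map_add, map_smul, smul_eq_mul] at a1
    rw [e2, map_add, map_smul, smul_eq_mul] at a2
    have s1 : s ≤ 0 := by nlinarith
    have s2 : 0 ≤ s := by nlinarith
    have s0 : s = 0 := le_antisymm s1 s2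
    rw [s0, zero_smul, add_zero] at e1
    subst e1
    exact h3 v hv hf c hc c' hc' ht ht'
  obtain ⟨s1, c1, hc1, hl1, ht1, hf1⟩ := exists_step Cs α lam v0 w hf0 (h2 w hwL hw0)
  obtain ⟨s2, c2, hc2, hl2, ht2, hf2⟩ := exists_step Cs α lam v0 (-w) hf0
    (h2 _ (L.neg_mem hwL) (neg_ne_zero.2 hw0))
  have hA1 := hA v0 hv0 _ (L.smul_mem s1 hwL)
  have hA2 := hA v0 hv0 _ (L.smul_mem s2 (L.neg_mem hwL))
  have hne : c1 ≠ c2 := by
    rintro rfl
    rw [map_neg] at hl2
    linarith
  have : (Cs.filter fun c => ∃ v ∈ A, (∀ c' ∈ Cs, 0 ≤ α c' + lam c' v) ∧ α c + lam c v = 0)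
      = {c1, c2} := by
    ext c
    simp only [mem_filter, mem_insert, mem_singleton]
    constructor
    · rintro ⟨hc, v, hv, hf, ht⟩
      have hne0 : lam c w ≠ 0 := fun h => hw0 (inj v hv hf c hc ht w hwL h)
      rcases lt_or_gt_of_ne hne0 with h | h
      · exact Or.inl (uniq w hwL v hv _ hA1 hf hf1 c hc c1 hc1 ht ht1 h hl1)
      · exact Or.inr (uniq (-w) (L.neg_mem hwL) v hv _ hA2 hf hf2 c hc c2 hc2 ht ht2
          (by rw [map_neg]; linarith) hl2)
    · rintro (rfl | rfl)
      · exact ⟨hc1, _, hA1, hf1, ht1⟩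
      · exact ⟨hc2, _, hA2, hf2, ht2⟩
  rw [this, card_pair hne]
  exact even_two

end Poly1

end Pool.Agent.MP_c36b31_co

end MrgPart3

-- ======== part 4: formerly Pool.Agent.MP_c36b31_co.Cells
section MrgPart4

/-! Intersection numbers mod two of cubical cells with simplices spanned by data points. -/

namespace Pool.Agent.MP_c36b31_co

open Finset

variable {d : ℕ} {D : Type*} [Fintype D] [DecidableEq D]

/-- coordinate `i` of the combination of the data points with coefficients `β` -/
def combL (b : D → Fin d → ℝ) (i : Fin d) : (D → ℝ) →ₗ[ℝ] ℝ where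
  toFun β := ∑ a, β a * b a i
  map_add' x y := by simp [add_mul, sum_add_distrib]
  map_smul' c x := by simp [mul_sum, mul_assoc]

/-- the cell `(z, S)` meets the convex hull of the data points in `t` -/
def Hit (b : D → Fin d → ℝ) (z : Fin d → ℤ) (S : Finset (Fin d)) (t : Finset D) : Prop :=
  ∃ β : D → ℝ, (∀ a, a ∉ t → β a = 0) ∧ ∑ a, β a = 1 ∧ (∀ i, i ∉ S → combL b i β = z i) ∧
    (∀ a ∈ t, 0 ≤ β a) ∧ ∀ i ∈ S, (z i : ℝ) ≤ combL b i β ∧ combL b i β ≤ z i + 1

/-- general position of the data with respect to the integer grid -/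
def Gen (b : D → Fin d → ℝ) : Prop :=
  ∀ (t : Finset D) (I : Finset (Fin d)) (c : Fin d → ℤ), t.card ≤ I.card → ∀ β : D → ℝ,
    (∀ a, a ∉ t → β a = 0) → ∑ a, β a = 1 → ¬ ∀ i ∈ I, combL b i β = c i

open Classical in
/-- intersection number mod two -/
noncomputable def W (b : D → Fin d → ℝ) (z : Fin d → ℤ) (S : Finset (Fin d)) (t : Finset D) :
    ZMod 2 := if Hit b z S t then 1 else 0

theorem Hit.mono {b : D → Fin d → ℝ} {z : Fin d → ℤ} {S S' : Finset (Fin d)} {t t' : Finset D}
    (h : Hit b z S t) (hS : S ⊆ S') (ht : t ⊆ t') : Hit b z S' t' := by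
  obtain ⟨β, h1, h2, h3, h4, h5⟩ := h
  refine ⟨β, fun a ha => h1 a fun h => ha (ht h), h2, fun i hi => h3 i fun h => hi (hS h),
    fun a _ => ?_, fun i _ => ?_⟩
  · by_cases ha : a ∈ t
    · exact h4 a ha
    · rw [h1 a ha]
  · by_cases hi : i ∈ S
    · exact h5 i hi
    · rw [h3 i hi]; constructor <;> linarith

omit [DecidableEq D] in
theorem Hit.of_upper {b : D → Fin d → ℝ} {z : Fin d → ℤ} {S : Finset (Fin d)} {t : Finset D}
    {i : Fin d} (hi : i ∈ S) (h : Hit b (z + Pi.single i 1) (S.erase i) t) : Hit b z S t := by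
  obtain ⟨β, h1, h2, h3, h4, h5⟩ := h
  refine ⟨β, h1, h2, fun j hj => ?_, h4, fun j hj => ?_⟩
  · have hji : j ≠ i := fun h => hj (h ▸ hi)
    have := h3 j (by simp [hj])
    simpa [hji] using this
  · by_cases hji : j = i
    · subst hji
      have := h3 j (by simp)
      simp at this
      rw [this]; constructor <;> linarith
    · have := h5 j (by simp [hj, hji])
      simpa [hji] using this

theorem cocycle {b : D → Fin d → ℝ} (hG : Gen b) (z : Fin d → ℤ) (S : Finset (Fin d))
    (t : Finset D) (hcard : t.card + S.card = d + 2) :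
    ∑ a ∈ t, W b z S (t.erase a) =
      ∑ i ∈ S, (W b z (S.erase i) t + W b (z + Pi.single i 1) (S.erase i) t) := by
  classical
  let Cs : Finset (D ⊕ (Fin d ⊕ Fin d)) := t.disjSum (S.disjSum S)
  let α : D ⊕ (Fin d ⊕ Fin d) → ℝ :=
    Sum.elim (fun _ => 0) (Sum.elim (fun i => -(z i : ℝ)) fun i => (z i : ℝ) + 1)
  let lam : D ⊕ (Fin d ⊕ Fin d) → (D → ℝ) →ₗ[ℝ] ℝ :=
    Sum.elim (fun a => LinearMap.proj a) (Sum.elim (fun i => combL b i) fun i => -combL b i)
  let A : Set (D → ℝ) :=
    {β | (∀ a, a ∉ t → β a = 0) ∧ ∑ a, β a = 1 ∧ ∀ i, i ∉ S → combL b i β = z i}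
  let Φ : (D → ℝ) →ₗ[ℝ] ({a // a ∉ t} → ℝ) × ℝ × ({i // i ∉ S} → ℝ) :=
    (LinearMap.pi fun a => LinearMap.proj a.1).prod
      ((∑ a, LinearMap.proj a).prod (LinearMap.pi fun i => combL b i.1))
  have hker : ∀ w, w ∈ LinearMap.ker Φ ↔
      (∀ a, a ∉ t → w a = 0) ∧ ∑ a, w a = 0 ∧ ∀ i, i ∉ S → combL b i w = 0 := by
    intro w
    simp [Φ, LinearMap.mem_ker, funext_iff, LinearMap.sum_apply]
  have hfeas : ∀ β : D → ℝ, (∀ c ∈ Cs, 0 ≤ α c + lam c β) ↔
      (∀ a ∈ t, 0 ≤ β a) ∧ ∀ i ∈ S, (z i : ℝ) ≤ combL b i β ∧ combL b i β ≤ z i + 1 := by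
    intro β
    constructor
    · intro h
      refine ⟨fun a ha => ?_, fun i hi => ⟨?_, ?_⟩⟩
      · simpa [α, lam] using h (Sum.inl a) (by simp [Cs, ha])
      · have := h (Sum.inr (Sum.inl i)) (by simp [Cs, hi])
        simp only [α, lam, Sum.elim_inr, Sum.elim_inl] at this
        linarith
      · have := h (Sum.inr (Sum.inr i)) (by simp [Cs, hi])
        simp only [α, lam, Sum.elim_inr, LinearMap.neg_apply] at this
        linarith
    · rintro ⟨h1, h2⟩ (a | i | i) hc
      · simpa [α, lam] using h1 a (by simpa [Cs] using hc)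
      · have := h2 i (by simpa [Cs] using hc)
        simp only [α, lam, Sum.elim_inr, Sum.elim_inl]
        linarith [this.1]
      · have := h2 i (by simpa [Cs] using hc)
        simp only [α, lam, Sum.elim_inr, LinearMap.neg_apply]
        linarith [this.2]
  have hSd : S.card ≤ d := by simpa using S.card_le_univ
  have htD : t.card ≤ Fintype.card D := t.card_le_univ
  have hcS : (Sᶜ).card = d - S.card := by simp [card_compl]
  have key := even_tight Cs α lam A (LinearMap.ker Φ) ?_ ?_ ?_ ?_ ?_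
  · rw [card_filter, ← ZMod.natCast_eq_zero_iff_even] at key
    push_cast at key
    simp only [Cs, sum_disjSum] at key
    rw [← sum_add_distrib] at key
    rw [← CharTwo.add_eq_zero]
    rw [← key]
    congr 1
    · refine sum_congr rfl fun a ha => ?_
      unfold W
      congr 1
      simp only [hfeas, eq_iff_iff, Cs] 
      constructor
      · rintro ⟨β, h1, h2, h3, h4, h5⟩
        have ha0 : β a = 0 := h1 a (by simp)
        refine ⟨β, ⟨fun a' ha' => h1 a' (by simp [ha']), h2, h3⟩, ⟨fun a' ha' => ?_, h5⟩, ?_⟩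
        · by_cases h : a' = a
          · rw [h, ha0]
          · exact h4 a' (by simp [h, ha'])
        · simp [α, lam, ha0]
      · rintro ⟨β, ⟨h1, h2, h3⟩, ⟨h4, h5⟩, h6⟩
        have ha0 : β a = 0 := by simpa [α, lam] using h6
        refine ⟨β, fun a' ha' => ?_, h2, h3, fun a' ha' => h4 a' (mem_of_mem_erase ha'), h5⟩
        by_cases h : a' = a
        · rw [h, ha0]
        · exact h1 a' (by simpa [h] using ha')
    · refine sum_congr rfl fun i hi => ?_
      unfold W
      congr 2
      · simp only [hfeas, eq_iff_iff, Cs]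
        constructor
        · intro h
          obtain ⟨β, h1, h2, h3, h4, h5⟩ := h
          have h' := h3 i (by simp)
          refine ⟨β, ⟨h1, h2, fun j hj => h3 j (by simp [hj])⟩, ⟨h4, fun j hj => ?_⟩, ?_⟩
          · by_cases hji : j = i
            · subst hji
              rw [h']; constructor <;> linarith
            · exact h5 j (by simp [hj, hji])
          · simp [α, lam, h']
        · rintro ⟨β, ⟨h1, h2, h3⟩, ⟨h4, h5⟩, h6⟩
          have h' : combL b i β = z i := by
            simp only [α, lam, Sum.elim_inr, Sum.elim_inl] at h6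
            linarith
          refine ⟨β, h1, h2, fun j hj => ?_, h4, fun j hj => h5 j (mem_of_mem_erase hj)⟩
          by_cases hji : j = i
          · rw [hji, h']
          · exact h3 j (by simpa [hji] using hj)
      · simp only [hfeas, eq_iff_iff, Cs]
        constructor
        · intro h
          obtain ⟨β, h1, h2, h3, h4, h5⟩ := h
          have h' : combL b i β = z i + 1 := by simpa using h3 i (by simp)
          refine ⟨β, ⟨h1, h2, fun j hj => ?_⟩, ⟨h4, fun j hj => ?_⟩, ?_⟩
          · have hji : j ≠ i := fun h => hj (h ▸ hi)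
            simpa [hji] using h3 j (by simp [hj])
          · by_cases hji : j = i
            · subst hji
              rw [h']; constructor <;> linarith
            · simpa [hji] using h5 j (by simp [hj, hji])
          · simp [α, lam, h']
        · rintro ⟨β, ⟨h1, h2, h3⟩, ⟨h4, h5⟩, h6⟩
          have h' : combL b i β = z i + 1 := by
            simp only [α, lam, Sum.elim_inr, LinearMap.neg_apply] at h6
            linarith
          refine ⟨β, h1, h2, fun j hj => ?_, h4, fun j hj => ?_⟩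
          · by_cases hji : j = i
            · rw [hji, h']; simp
            · simpa [hji] using h3 j (by simpa [hji] using hj)
          · have hji : j ≠ i := ne_of_mem_erase hj
            simpa [hji] using h5 j (mem_of_mem_erase hj)
  · rintro v ⟨h1, h2, h3⟩ w hw
    obtain ⟨k1, k2, k3⟩ := (hker w).1 hw
    refine ⟨fun a ha => by simp [h1 a ha, k1 a ha], by simp [sum_add_distrib, h2, k2],
      fun i hi => by rw [map_add, h3 i hi, k3 i hi, add_zero]⟩
  · rintro v ⟨h1, h2, h3⟩ w ⟨k1, k2, k3⟩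
    refine (hker _).2 ⟨fun a ha => by simp [h1 a ha, k1 a ha], by simp [sum_sub_distrib, h2, k2],
      fun i hi => by rw [map_sub, h3 i hi, k3 i hi, sub_self]⟩
  · apply Submodule.exists_mem_ne_zero_of_ne_bot
    apply LinearMap.ker_ne_bot_of_finrank_lt
    simp only [Module.finrank_prod, Module.finrank_fintype_fun_eq_card, Module.finrank_self,
      Fintype.card_subtype_compl, Fintype.card_coe, Fintype.card_fin]
    omega
  · intro w hw hw0
    obtain ⟨k1, k2, -⟩ := (hker w).1 hw
    by_contra hcon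
    push Not at hcon
    apply hw0
    have hnn : ∀ a ∈ (univ : Finset D), 0 ≤ w a := by
      intro a _
      by_cases ha : a ∈ t
      · simpa [lam] using hcon (Sum.inl a) (by simp [Cs, ha])
      · rw [k1 a ha]
    funext a
    exact (sum_eq_zero_iff_of_nonneg hnn).1 k2 a (mem_univ a)
  · rintro β ⟨h1, h2, h3⟩ - c hc c' hc' ht ht'
    by_contra hne
    -- zero coefficient
    have e1 : ∀ a, α (Sum.inl a) + lam (Sum.inl a) β = 0 → β a = 0 := by
      intro a h; simpa [α, lam] using h
    -- coordinate on the grid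
    have e2 : ∀ c : Fin d ⊕ Fin d, α (Sum.inr c) + lam (Sum.inr c) β = 0 →
        ∃ m : ℤ, combL b (Sum.elim id id c) β = m := by
      rintro (i | i) h
      · refine ⟨z i, ?_⟩
        simp only [α, lam, Sum.elim_inr, Sum.elim_inl, id] at h ⊢
        linarith
      · refine ⟨z i + 1, ?_⟩
        simp only [α, lam, Sum.elim_inr, LinearMap.neg_apply, id] at h ⊢
        push_cast
        linarith
    have mS : ∀ c : Fin d ⊕ Fin d, Sum.inr c ∈ Cs → Sum.elim id id c ∈ S := by
      rintro (i | i) h <;> simpa [Cs] using h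
    have mix : ∀ a, ∀ c : Fin d ⊕ Fin d, Sum.inl a ∈ Cs → Sum.inr c ∈ Cs →
        α (Sum.inl a) + lam (Sum.inl a) β = 0 → α (Sum.inr c) + lam (Sum.inr c) β = 0 →
        False := by
      intro a c ha hc k1 k2
      have hat : a ∈ t := by simpa [Cs] using ha
      obtain ⟨m, hm⟩ := e2 c k2
      have hi := mS c hc
      set i := Sum.elim id id c
      refine hG (t.erase a) (insert i Sᶜ) (Function.update z i m) ?_ β ?_ h2 ?_
      · rw [card_erase_of_mem hat, card_insert_of_notMem (by simpa using hi), hcS]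
        omega
      · intro a' ha'
        by_cases h : a' = a
        · rw [h, e1 a k1]
        · exact h1 a' (by simpa [h] using ha')
      · intro j hj
        by_cases h : j = i
        · rw [h, hm]; simp
        · rw [Function.update_of_ne h]
          exact h3 j (by simpa [h] using hj)
    rcases c with a | c <;> rcases c' with a' | c'
    · have hat : a ∈ t := by simpa [Cs] using hc
      have hat' : a' ∈ t := by simpa [Cs] using hc'
      have haa : a' ≠ a := fun h => hne (by rw [h])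
      refine hG ((t.erase a).erase a') Sᶜ z ?_ β ?_ h2 ?_
      · rw [card_erase_of_mem (by simp [haa, hat']), card_erase_of_mem hat, hcS]
        omega
      · intro x hx
        by_cases h : x = a
        · rw [h, e1 a ht]
        · by_cases h' : x = a'
          · rw [h', e1 a' ht']
          · exact h1 x (by simpa [h, h'] using hx)
      · intro j hj
        exact h3 j (by simpa using hj)
    · exact mix a c' hc hc' ht ht'
    · exact mix a' c hc' hc ht' ht
    · have hii : Sum.elim id id c ≠ Sum.elim id id c' := by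
        rcases c with i | i <;> rcases c' with j | j
        · intro h; exact hne (by simpa using h)
        · intro h
          simp only [Sum.elim_inl, Sum.elim_inr, id] at h
          subst h
          simp only [α, lam, Sum.elim_inr, Sum.elim_inl, LinearMap.neg_apply] at ht ht'
          linarith
        · intro h
          simp only [Sum.elim_inl, Sum.elim_inr, id] at h
          subst h
          simp only [α, lam, Sum.elim_inr, Sum.elim_inl, LinearMap.neg_apply] at ht ht'
          linarith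
        · intro h; exact hne (by simpa using h)
      obtain ⟨m, hm⟩ := e2 c ht
      obtain ⟨m', hm'⟩ := e2 c' ht'
      have hi := mS c hc
      have hi' := mS c' hc'
      set i := Sum.elim id id c
      set i' := Sum.elim id id c'
      refine hG t (insert i (insert i' Sᶜ)) (Function.update (Function.update z i' m') i m)
        ?_ β h1 h2 ?_
      · rw [card_insert_of_notMem (by simp [hi, hii]),
          card_insert_of_notMem (by simpa using hi'), hcS]
        omega
      · intro j hj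
        by_cases h : j = i
        · rw [h, hm]; simp
        · rw [Function.update_of_ne h]
          by_cases h' : j = i'
          · rw [h', hm']; simp
          · rw [Function.update_of_ne h']
            exact h3 j (by simpa [h, h'] using hj)

end Pool.Agent.MP_c36b31_co

end MrgPart4

-- ======== part 5: formerly Pool.Agent.MP_c36b31_co.Cofill
section MrgPart5

/-! The cofilling argument: some unit cube meets a positive fraction of rainbow simplices. -/

namespace Pool.Agent.MP_c36b31_co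

open Finset

variable {d N : ℕ}

/-- the data points of the rainbow tuple `κ` with colour at least `m` -/
def rb (κ : Fin (d + 1) → Fin N) (m : ℕ) : Finset (Fin (d + 1) × Fin N) :=
  univ.filter fun a => m ≤ a.1.val ∧ a.2 = κ a.1

theorem rb_update (κ : Fin (d + 1) → Fin N) (j : Fin (d + 1)) (m : Fin N) :
    rb (Function.update κ j m) j.val = insert (j, m) (rb κ (j.val + 1)) := by
  ext ⟨a, x⟩
  simp only [rb, mem_filter, mem_univ, true_and, mem_insert, Prod.mk.injEq]
  by_cases h : a = j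
  · subst h; simp
  · have : a.val ≠ j.val := fun h' => h (Fin.ext h')
    simp only [Function.update_of_ne h, h, false_and, false_or]
    constructor
    · rintro ⟨h1, h2⟩; exact ⟨by omega, h2⟩
    · rintro ⟨h1, h2⟩; exact ⟨by omega, h2⟩

theorem averaging {ι : Type*} [Fintype ι] [DecidableEq ι] (hN : 0 < N) (p : (ι → Fin N) → Prop)
    [DecidablePred p] (j : ι) :
    ∃ m, (univ.filter fun κ => p (Function.update κ j m)).card ≤ (univ.filter p).card := by
  have : Nonempty (Fin N) := ⟨⟨0, hN⟩⟩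
  have : ∑ m : Fin N, (univ.filter fun κ => p (Function.update κ j m)).card ≤
      ∑ _m : Fin N, (univ.filter p).card := by
    apply le_of_eq
    simp only [card_filter]
    rw [← Fintype.sum_prod_type', ← Fintype.sum_prod_type']
    let e : Fin N × (ι → Fin N) → Fin N × (ι → Fin N) :=
      fun x => (x.2 j, Function.update x.2 j x.1)
    have he : Function.Involutive e := by
      rintro ⟨m, κ⟩
      simp [e]
    exact Fintype.sum_equiv he.toPerm _ _ fun x => rfl
  obtain ⟨m, -, hm⟩ := exists_le_of_sum_le univ_nonempty this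
  exact ⟨m, hm⟩

theorem bdry_bdry (S : Finset (Fin d)) (H : Fin d → Fin d → ZMod 2) (hH : ∀ i j, H i j = H j i) :
    ∑ i ∈ S, ∑ j ∈ S.erase i, H i j = 0 := by
  rw [sum_sigma']
  refine sum_involution (fun x _ => ⟨x.2, x.1⟩) ?_ ?_ ?_ ?_
  · intro a _
    simp only
    rw [hH a.2 a.1, CharTwo.add_self_eq_zero]
  · rintro ⟨i, j⟩ ha _ h
    simp only [mem_sigma, mem_erase] at ha
    simp only [Sigma.mk.injEq] at h
    exact ha.2.1 h.1
  · rintro ⟨i, j⟩ ha
    simp only [mem_sigma, mem_erase] at ha ⊢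
    exact ⟨ha.2.2, ha.2.1.symm, ha.1⟩
  · intro a _
    rfl

open Classical in
theorem cofill (hN : 0 < N) (b : Fin (d + 1) × Fin N → Fin d → ℝ) (hG : Gen b) (A : ℕ)
    (hA : ∀ z, (univ.filter fun κ => Hit b z univ (rb κ 0)).card ≤ A) (k : ℕ) (hk : k ≤ d) :
    ∃ f g : (Fin d → ℤ) → Finset (Fin d) → Finset (Fin (d + 1) × Fin N) → ZMod 2,
      (∀ z S, S.card + 1 = k → ¬ Hit b z S univ → ∀ t, f z S t = 0) ∧
      ∀ z S, S.card = k →
        (∀ t, g z S t = W b z S t +
          ∑ i ∈ S, (f z (S.erase i) t + f (z + Pi.single i 1) (S.erase i) t)) ∧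
        (∀ t : Finset (Fin (d + 1) × Fin N), (∀ a ∈ t, k ≤ a.1.val) → t.card + k = d + 2 →
          ∑ a ∈ t, g z S (t.erase a) = 0) ∧
        (univ.filter fun κ => g z S (rb κ k) ≠ 0).card ≤ (2 * d + 1) ^ k * A := by
  have hW : ∀ z S m, (univ.filter fun κ => W b z S (rb κ m) ≠ 0).card ≤ A := by
    intro z S m
    refine le_trans (card_le_card ?_) (hA z)
    intro κ hκ
    simp only [mem_filter, mem_univ, true_and, W, ne_eq, ite_eq_right_iff, not_forall] at hκ ⊢
    obtain ⟨h, -⟩ := hκ
    refine h.mono (subset_univ _) ?_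
    intro a ha
    simp only [rb, mem_filter, mem_univ, true_and] at ha ⊢
    exact ⟨Nat.zero_le _, ha.2⟩
  induction k with
  | zero =>
    refine ⟨0, W b, fun _ _ _ _ _ => rfl, fun z S hS => ⟨?_, ?_, ?_⟩⟩
    · intro t; simp
    · intro t _ ht
      rw [cocycle hG z S t (by omega), card_eq_zero.1 hS, sum_empty]
    · simpa using hW z S 0
  | succ k ih =>
    obtain ⟨f, g, hf0, hg⟩ := ih (by omega)
    let c : Fin (d + 1) := ⟨k, by omega⟩
    have hg0 : ∀ z S, S.card = k → ¬ Hit b z S univ → ∀ t, g z S t = 0 := by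
      intro z S hS hH t
      rw [(hg z S hS).1 t, sum_eq_zero, add_zero]
      · exact if_neg fun h => hH (h.mono Subset.rfl (subset_univ _))
      · intro i hi
        have hc : (S.erase i).card + 1 = k := by rw [card_erase_add_one hi, hS]
        rw [hf0 z _ hc (fun h => hH (h.mono (erase_subset _ _) Subset.rfl)),
          hf0 _ _ hc (fun h => hH (h.of_upper hi)), add_zero]
    have hx : ∀ z S, ∃ m : Fin N, (univ.filter fun κ =>
        g z S (insert (c, m) (rb κ (k + 1))) ≠ 0).card ≤
          (univ.filter fun κ => g z S (rb κ k) ≠ 0).card := by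
      intro z S
      obtain ⟨m, hm⟩ := averaging hN (fun κ => g z S (rb κ k) ≠ 0) c
      refine ⟨m, ?_⟩
      have e : ∀ κ : Fin (d + 1) → Fin N,
          rb (Function.update κ c m) k = insert (c, m) (rb κ (k + 1)) := fun κ => rb_update κ c m
      simpa only [e] using hm
    choose x hx using hx
    let f' : (Fin d → ℤ) → Finset (Fin d) → Finset (Fin (d + 1) × Fin N) → ZMod 2 :=
      fun z S t => g z S (insert (c, x z S) t)
    refine ⟨f', fun z S t => W b z S t +
      ∑ i ∈ S, (f' z (S.erase i) t + f' (z + Pi.single i 1) (S.erase i) t), ?_,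
      fun z S hS => ⟨fun t => rfl, ?_, ?_⟩⟩
    · intro z S hS hH t
      exact hg0 z S (by omega) hH _
    · intro t ht hcard
      have hδ : ∀ z S, S.card = k → ∑ a ∈ t, f' z S (t.erase a) = g z S t := by
        intro z S hS
        have hn : (c, x z S) ∉ t := fun h => by
          have := ht _ h
          simp [c] at this
        have := (hg z S hS).2.1 (insert (c, x z S) t) ?_ ?_
        · rw [sum_insert hn, erase_insert hn, CharTwo.add_eq_zero] at this
          rw [this]
          refine sum_congr rfl fun a ha => ?_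
          have hne : (c, x z S) ≠ a := fun h => hn (h ▸ ha)
          simp only [f']
          rw [erase_insert_of_ne hne]
        · intro a ha
          rcases mem_insert.1 ha with rfl | ha
          · exact le_rfl
          · have := ht a ha
            omega
        · rw [card_insert_of_notMem hn]
          omega
      rw [sum_add_distrib, cocycle hG z S t (by omega), sum_comm, ← sum_add_distrib]
      refine Eq.trans (sum_congr rfl fun i hi => ?_) (bdry_bdry S (fun i j =>
        f z ((S.erase i).erase j) t + f (z + Pi.single j 1) ((S.erase i).erase j) t +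
        (f (z + Pi.single i 1) ((S.erase i).erase j) t +
          f (z + Pi.single i 1 + Pi.single j 1) ((S.erase i).erase j) t)) ?_)
      · have hc : (S.erase i).card = k := by rw [card_erase_of_mem hi]; omega
        rw [sum_add_distrib, hδ _ _ hc, hδ _ _ hc, (hg _ _ hc).1 t, (hg _ _ hc).1 t]
        simp only [sum_add_distrib]
        have h2 : (2 : ZMod 2) = 0 := rfl
        linear_combination (W b z (S.erase i) t + W b (z + Pi.single i 1) (S.erase i) t) * h2
      · intro i j
        simp only [erase_right_comm (a := i), add_right_comm z (Pi.single i 1)]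
        ring
    · have hb : ∀ z S, S.card = k → (univ.filter fun κ => f' z S (rb κ (k + 1)) ≠ 0).card ≤
          (2 * d + 1) ^ k * A := fun z S hS => (hx z S).trans (hg z S hS).2.2
      have hsub : (univ.filter fun κ => W b z S (rb κ (k + 1)) +
          ∑ i ∈ S, (f' z (S.erase i) (rb κ (k + 1)) +
            f' (z + Pi.single i 1) (S.erase i) (rb κ (k + 1))) ≠ 0) ⊆
          (univ.filter fun κ => W b z S (rb κ (k + 1)) ≠ 0) ∪
            S.biUnion fun i => (univ.filter fun κ => f' z (S.erase i) (rb κ (k + 1)) ≠ 0) ∪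
              (univ.filter fun κ => f' (z + Pi.single i 1) (S.erase i) (rb κ (k + 1)) ≠ 0) := by
        intro κ hκ
        simp only [mem_filter, mem_univ, true_and, mem_union, mem_biUnion] at hκ ⊢
        by_contra hcon
        push Not at hcon
        apply hκ
        rw [hcon.1, sum_eq_zero, add_zero]
        intro i hi
        rw [(hcon.2 i hi).1, (hcon.2 i hi).2, add_zero]
      refine (card_le_card hsub).trans ((card_union_le _ _).trans ?_)
      have h1 := hW z S (k + 1)
      have h2 := card_biUnion_le_card_mul S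
        (fun i => (univ.filter fun κ => f' z (S.erase i) (rb κ (k + 1)) ≠ 0) ∪
          (univ.filter fun κ => f' (z + Pi.single i 1) (S.erase i) (rb κ (k + 1)) ≠ 0))
        (2 * ((2 * d + 1) ^ k * A)) (by
          intro i hi
          have hc : (S.erase i).card = k := by rw [card_erase_of_mem hi]; omega
          have := hb z _ hc
          have := hb (z + Pi.single i 1) _ hc
          refine (card_union_le _ _).trans ?_
          omega)
      have h3 : A ≤ (2 * d + 1) ^ k * A := Nat.le_mul_of_pos_left _ (by positivity)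
      have h4 : S.card * (2 * ((2 * d + 1) ^ k * A)) ≤ d * (2 * ((2 * d + 1) ^ k * A)) :=
        Nat.mul_le_mul_right _ (by omega)
      calc _ ≤ (2 * d + 1) ^ k * A + d * (2 * ((2 * d + 1) ^ k * A)) := by omega
        _ = _ := by ring

theorem finite_hit {D : Type*} [Fintype D] [DecidableEq D] (b : D → Fin d → ℝ)
    (S : Finset (Fin d)) : {z | Hit b z S univ}.Finite := by
  obtain ⟨M, hM⟩ : ∃ M : ℤ, ∀ a i, |b a i| ≤ M := by
    obtain ⟨M, hM⟩ := (Set.finite_range fun x : D × Fin d => |b x.1 x.2|).bddAbove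
    exact ⟨⌈M⌉, fun a i => (hM ⟨(a, i), rfl⟩).trans (Int.le_ceil M)⟩
  refine (Set.Finite.pi' fun _ : Fin d => Set.finite_Icc (-M - 1) M).subset ?_
  intro z hz i
  obtain ⟨β, -, h2, -, h4, h5⟩ := Hit.mono hz (subset_univ S) Subset.rfl
  obtain ⟨k1, k2⟩ := h5 i (mem_univ i)
  have e1 : combL b i β ≤ M := by
    calc combL b i β = ∑ a, β a * b a i := rfl
      _ ≤ ∑ a, β a * M := sum_le_sum fun a _ =>
          mul_le_mul_of_nonneg_left (abs_le.1 (hM a i)).2 (h4 a (mem_univ a))
      _ = M := by rw [← sum_mul, h2, one_mul]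
  have e2 : -M ≤ combL b i β := by
    calc (-M : ℝ) = ∑ a, β a * -M := by rw [← sum_mul, h2, one_mul]
      _ ≤ ∑ a, β a * b a i := sum_le_sum fun a _ =>
          mul_le_mul_of_nonneg_left (abs_le.1 (hM a i)).1 (h4 a (mem_univ a))
  constructor
  · have : ((-M - 1 : ℤ) : ℝ) ≤ z i := by push_cast; linarith
    exact_mod_cast this
  · have : (z i : ℝ) ≤ M := by linarith
    exact_mod_cast this

theorem finsum_W {D : Type*} [Fintype D] [DecidableEq D] {b : D → Fin d → ℝ} (hG : Gen b)
    (a : D) : ∑ᶠ z, W b z univ {a} = 1 := by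
  have hc : ∀ i, combL b i (Pi.single a 1) = b a i := by
    intro i
    simp [combL, Pi.single_apply]
  rw [finsum_eq_single _ (fun i => ⌊b a i⌋)]
  · refine if_pos ⟨Pi.single a 1, fun a' ha' => ?_, by simp, by simp, by simp, fun i _ => ?_⟩
    · exact Pi.single_eq_of_ne (by simpa using ha') _
    · rw [hc]
      exact ⟨Int.floor_le _, (Int.lt_floor_add_one _).le⟩
  · intro z hz
    refine if_neg ?_
    rintro ⟨β, h1, h2, -, -, h5⟩
    apply hz
    have hβ : β = Pi.single a 1 := by
      funext a'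
      by_cases h : a' = a
      · subst h
        rw [← h2, Pi.single_eq_same, sum_eq_single a' (fun x _ hx => h1 x (by simpa using hx))
          (by simp)]
      · rw [Pi.single_eq_of_ne h, h1 a' (by simpa using h)]
    funext i
    obtain ⟨k1, k2⟩ := h5 i (mem_univ i)
    have hne : combL b i β ≠ z i + 1 := by
      intro h
      refine hG {a} {i} (fun i => z i + 1) (by simp) β h1 h2 ?_
      intro j hj
      rw [mem_singleton.1 hj, h]
      simp
    rw [hβ, hc] at k1 k2 hne
    exact (Int.floor_eq_iff.2 ⟨k1, lt_of_le_of_ne k2 hne⟩).symm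

open Classical in
theorem core (hN : 0 < N) (b : Fin (d + 1) × Fin N → Fin d → ℝ) (hG : Gen b) (A : ℕ)
    (hA : ∀ z, (univ.filter fun κ => Hit b z univ (rb κ 0)).card ≤ A) :
    N ^ (d + 1) ≤ (2 * d + 1) ^ d * A := by
  obtain ⟨f, g, hf0, hg⟩ := cofill hN b hG A hA d le_rfl
  by_contra hcon
  let a : Fin (d + 1) × Fin N := (Fin.last d, ⟨0, hN⟩)
  have hcu : (univ : Finset (Fin d)).card = d := by simp
  have hzero : ∀ z, g z univ {a} = 0 := by
    intro z
    by_contra hne
    apply hcon
    refine le_trans (le_of_eq ?_) (hg z univ hcu).2.2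
    rw [filter_true_of_mem]
    · simp
    · intro κ _
      have e : rb κ d = {(Fin.last d, κ (Fin.last d))} := by
        ext ⟨j, m⟩
        simp only [rb, mem_filter, mem_univ, true_and, mem_singleton, Prod.mk.injEq]
        constructor
        · rintro ⟨h1, h2⟩
          have : j = Fin.last d := Fin.ext (by have := j.2; simp; omega)
          subst this
          exact ⟨rfl, h2⟩
        · rintro ⟨rfl, h2⟩
          exact ⟨by simp, h2⟩
      rw [e]
      by_cases h : a = (Fin.last d, κ (Fin.last d))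
      · rw [← h]; exact hne
      · have := (hg z univ hcu).2.1 {a, (Fin.last d, κ (Fin.last d))} (by simp [a])
          (by rw [card_pair h]; omega)
        rw [sum_pair h, erase_insert (by simpa using h), pair_comm,
          erase_insert (by simpa using Ne.symm h), CharTwo.add_eq_zero] at this
        rw [this]
        exact hne
  have hfin : ∀ i : Fin d, Function.HasFiniteSupport fun z => f z (univ.erase i) {a} := by
    intro i
    refine (finite_hit b (univ.erase i)).subset fun z hz => ?_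
    by_contra h
    exact hz (hf0 z _ (by rw [card_erase_add_one (mem_univ i), hcu]) h _)
  have hfin' : ∀ i : Fin d,
      Function.HasFiniteSupport
      fun z : Fin d → ℤ => f (z + Pi.single i 1) (univ.erase i) {a} := by
    intro i
    exact (hfin i).preimage (f := fun z : Fin d → ℤ => z + (Pi.single i 1 : Fin d → ℤ))
      (add_left_injective _).injOn
  have hsum : ∀ z, W b z univ {a} =
      ∑ i, (f z (univ.erase i) {a} + f (z + Pi.single i 1) (univ.erase i) {a}) := by
    intro z
    rw [← CharTwo.add_eq_zero, ← (hg z univ hcu).1, hzero]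
  have h1 := finsum_W hG a
  rw [finsum_congr hsum, finsum_sum_comm univ (fun z i => f z (univ.erase i) {a} +
      f (z + Pi.single i 1) (univ.erase i) {a}) (fun i _ => (hfin i).add (hfin' i)),
    sum_eq_zero] at h1
  · exact zero_ne_one h1
  · intro i _
    rw [finsum_add_distrib (hfin i) (hfin' i), CharTwo.add_eq_zero]
    exact (finsum_comp_equiv (Equiv.addRight (Pi.single i 1 : Fin d → ℤ))
      (f := fun z => f z (univ.erase i) {a})).symm

end Pool.Agent.MP_c36b31_co

end MrgPart5

-- ======== part 6: formerly Pool.Agent.MP_c36b31_co.Select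
section MrgPart6

/-! The colourful first selection lemma. -/

namespace Pool.Agent.MP_c36b31_co

open Finset MeasureTheory

variable {d N : ℕ}

theorem exists_gen {D : Type*} [Fintype D] [DecidableEq D] (q : D → Fin d → ℝ) :
    ∃ θ : Fin d → ℝ, Gen fun a => q a - θ := by
  have key : ∀ (t : Finset D) (I : Finset (Fin d)) (c : Fin d → ℤ), ∀ᵐ θ : Fin d → ℝ,
      t.card ≤ I.card → ∀ β : D → ℝ, (∀ a, a ∉ t → β a = 0) → ∑ a, β a = 1 →
        ¬ ∀ i ∈ I, combL (fun a => q a - θ) i β = c i := by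
    intro t I c
    by_cases hc : t.card ≤ I.card
    swap
    · exact Filter.Eventually.of_forall fun θ h => absurd h hc
    let v : t ⊕ {i // i ∉ I} → ℝ × (Fin d → ℝ) :=
      Sum.elim (fun a => (1, fun i => q a i - c i)) fun i => (0, Pi.single i.1 1)
    let R : Submodule ℝ (ℝ × (Fin d → ℝ)) := Submodule.span ℝ (Set.range v)
    have hR : R ≠ ⊤ := by
      intro h
      have h1 := finrank_range_le_card (R := ℝ) v
      have h2 : Module.finrank ℝ R = d + 1 := by
        rw [h, finrank_top]; simp [add_comm]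
      have h3 : I.card ≤ d := by simpa using I.card_le_univ
      change Module.finrank ℝ R ≤ _ at h1
      simp only [Fintype.card_sum, Fintype.card_coe, Fintype.card_subtype_compl,
        Fintype.card_fin] at h1
      omega
    let φ : (Fin d → ℝ) →ᵃ[ℝ] ℝ × (Fin d → ℝ) :=
      (AffineMap.const ℝ _ (1 : ℝ)).prod (AffineMap.id ℝ _)
    have hs : R.toAffineSubspace.comap φ ≠ ⊤ := by
      intro h
      apply hR
      have hm : ∀ θ : Fin d → ℝ, ((1 : ℝ), θ) ∈ R := by
        intro θ
        have : θ ∈ R.toAffineSubspace.comap φ := by rw [h]; trivial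
        exact this
      rw [eq_top_iff]
      rintro ⟨s, θ⟩ -
      have := R.add_mem (R.smul_mem (s - 1) (hm 0)) (hm θ)
      simpa using this
    have h0 := Measure.addHaar_affineSubspace volume _ hs
    refine measure_mono_null ?_ h0
    intro θ hθ
    have hθ' : ¬ (t.card ≤ I.card → ∀ β : D → ℝ, (∀ a, a ∉ t → β a = 0) → ∑ a, β a = 1 →
        ¬ ∀ i ∈ I, combL (fun a => q a - θ) i β = c i) := hθ
    push Not at hθ'
    obtain ⟨-, β, h1, h2, h3⟩ := hθ'
    change ((1 : ℝ), θ) ∈ R
    have e : ((1 : ℝ), θ) = ∑ a, β a • ((1 : ℝ), fun i => q a i - c i) +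
        ∑ i, (c i - combL (fun a => q a - θ) i β) •
          ((0 : ℝ), (Pi.single i 1 : Fin d → ℝ)) := by
      ext i
      · simp [Prod.fst_sum, h2]
      · simp only [Prod.snd_add, Prod.snd_sum, Prod.smul_snd, Pi.add_apply, Finset.sum_apply,
          Pi.smul_apply, smul_eq_mul, Pi.single_apply, mul_ite, mul_one, mul_zero, sum_ite_eq,
          mem_univ, if_true]
        simp only [combL, LinearMap.coe_mk, AddHom.coe_mk, Pi.sub_apply, mul_sub,
          sum_sub_distrib, ← sum_mul, h2]
        ring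
    rw [e]
    refine R.add_mem (R.sum_mem fun a _ => ?_) (R.sum_mem fun i _ => ?_)
    · by_cases ha : a ∈ t
      · exact R.smul_mem _ (Submodule.subset_span ⟨Sum.inl ⟨a, ha⟩, rfl⟩)
      · rw [h1 a ha, zero_smul]; exact R.zero_mem
    · by_cases hi : i ∈ I
      · rw [h3 i hi, sub_self, zero_smul]; exact R.zero_mem
      · exact R.smul_mem _ (Submodule.subset_span ⟨Sum.inr ⟨i, hi⟩, rfl⟩)
  have := ae_all_iff.2 fun t => ae_all_iff.2 fun I => ae_all_iff.2 fun c => key t I c
  exact this.exists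

open Classical in
/-- colourful first selection lemma -/
theorem selection (hN : 0 < N) (p : Fin (d + 1) → Fin N → Fin d → ℝ) :
    ∃ x, N ^ (d + 1) ≤ (2 * d + 1) ^ d * (univ.filter fun κ : Fin (d + 1) → Fin N =>
      x ∈ convexHull ℝ (Set.range fun j => p j (κ j))).card := by
  by_contra hcon
  push Not at hcon
  let H : (Fin (d + 1) → Fin N) → Set (Fin d → ℝ) :=
    fun κ => convexHull ℝ (Set.range fun j => p j (κ j))
  have hH : ∀ κ, IsCompact (H κ) := fun κ => (Set.finite_range _).isCompact_convexHull ℝ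
  let U : (Fin d → ℝ) → Set (Fin d → ℝ) := fun y => ⋂ κ : {κ // y ∉ H κ}, (H κ.1)ᶜ
  have hU : ∀ y, IsOpen (U y) := fun y =>
    isOpen_iInter_of_finite fun κ => (hH κ.1).isClosed.isOpen_compl
  obtain ⟨δ, hδ, hleb⟩ := lebesgue_number_lemma_of_metric (isCompact_iUnion hH) hU
    (fun y _ => Set.mem_iUnion.2 ⟨y, Set.mem_iInter.2 fun κ => κ.2⟩)
  obtain ⟨θ, hθ⟩ := exists_gen fun a : Fin (d + 1) × Fin N => (2 / δ) • p a.1 a.2
  have hpos : 0 < (2 * d + 1) ^ d := by positivity
  have hNpos : 0 < N ^ (d + 1) := by positivity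
  have := core hN _ hθ ((N ^ (d + 1) - 1) / (2 * d + 1) ^ d) ?_
  · have h2 := Nat.mul_div_le (N ^ (d + 1) - 1) ((2 * d + 1) ^ d)
    omega
  intro z
  have hit : ∀ κ, Hit (fun a : Fin (d + 1) × Fin N => (2 / δ) • p a.1 a.2 - θ) z univ (rb κ 0) →
      ∃ y ∈ H κ, ∀ i, (z i : ℝ) ≤ 2 / δ * y i - θ i ∧ 2 / δ * y i - θ i ≤ z i + 1 := by
    rintro κ ⟨β, h1, h2, -, h4, h5⟩
    refine ⟨∑ a ∈ rb κ 0, β a • p a.1 a.2, (convex_convexHull ℝ _).sum_mem h4 ?_ ?_, ?_⟩
    · rw [← h2]
      exact sum_subset (subset_univ _) fun a _ ha => h1 a ha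
    · intro a ha
      refine subset_convexHull ℝ _ ⟨a.1, ?_⟩
      simp only [rb, mem_filter] at ha
      rw [ha.2.2]
    · intro i
      have e : combL (fun a : Fin (d + 1) × Fin N => (2 / δ) • p a.1 a.2 - θ) i β =
          2 / δ * (∑ a ∈ rb κ 0, β a • p a.1 a.2) i - θ i := by
        rw [sum_subset (subset_univ _) fun a _ ha => by rw [h1 a ha, zero_smul]]
        simp only [combL, LinearMap.coe_mk, AddHom.coe_mk, Pi.sub_apply, mul_sub,
          sum_sub_distrib, ← sum_mul, h2, Finset.sum_apply, Pi.smul_apply, smul_eq_mul, mul_sum,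
          one_mul]
        congr 1
        exact sum_congr rfl fun a _ => by ring
      rw [← e]
      exact h5 i (mem_univ i)
  rcases (univ.filter fun κ => Hit (fun a : Fin (d + 1) × Fin N => (2 / δ) • p a.1 a.2 - θ) z univ
    (rb κ 0)).eq_empty_or_nonempty with h | ⟨κ0, h0⟩
  · rw [h]; exact Nat.zero_le _
  obtain ⟨y0, hy0, hz0⟩ := hit κ0 (mem_filter.1 h0).2
  obtain ⟨y, hy⟩ := hleb y0 (Set.mem_iUnion.2 ⟨κ0, hy0⟩)
  rw [Nat.le_div_iff_mul_le hpos]
  refine le_trans (Nat.mul_le_mul_right _ (card_le_card (t := univ.filter fun κ => y ∈ H κ) ?_))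
    (by rw [mul_comm]; exact Nat.le_sub_one_of_lt (hcon y))
  intro κ hκ
  obtain ⟨y1, hy1, hz1⟩ := hit κ (mem_filter.1 hκ).2
  rw [mem_filter]
  refine ⟨mem_univ _, ?_⟩
  by_contra hn
  have : y1 ∈ Metric.ball y0 δ := by
    rw [Metric.mem_ball, dist_pi_lt_iff hδ]
    intro i
    obtain ⟨a1, a2⟩ := hz0 i
    obtain ⟨a3, a4⟩ := hz1 i
    have e1 : 2 / δ * (y1 i - y0 i) ≤ 1 := by linarith
    have e2 : 2 / δ * (y0 i - y1 i) ≤ 1 := by linarith
    rw [div_mul_eq_mul_div, div_le_one hδ] at e1 e2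
    rw [Real.dist_eq, abs_lt]
    constructor <;> linarith
  exact Set.mem_iInter.1 (hy this) ⟨κ, hn⟩ hy1

/-- a large family of tuples contains many tuples that differ in every coordinate -/
theorem greedy {m s : ℕ} (r : ℕ) (F : Finset (Fin (m + 1) → Fin s)) (hs : 0 < s)
    (hF : r * ((m + 1) * s ^ m) ≤ F.card) :
    ∃ T : Fin r → Fin (m + 1) → Fin s, (∀ i, T i ∈ F) ∧
      ∀ j, Function.Injective fun i => T i j := by
  induction r with
  | zero => exact ⟨fun i => i.elim0, fun i => i.elim0, fun j i => i.elim0⟩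
  | succ r ih =>
    have hp : 0 < (m + 1) * s ^ m := by positivity
    rw [add_mul, one_mul] at hF
    obtain ⟨T, hT, hinj⟩ := ih (by omega)
    let B : Finset (Fin (m + 1) → Fin s) := (univ : Finset (Fin r × Fin (m + 1))).biUnion
      fun x => univ.filter fun κ => κ x.2 = T x.1 x.2
    have hB : B.card ≤ r * ((m + 1) * s ^ m) := by
      refine (card_biUnion_le_card_mul _ _ (s ^ m) fun x _ => ?_).trans (le_of_eq ?_)
      · have := Fintype.card_filter_piFinset_const_eq_of_mem (univ : Finset (Fin s)) x.2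
          (mem_univ (T x.1 x.2))
        simpa using this.le
      · simp [mul_assoc]
    obtain ⟨κ, hκ, hκB⟩ := exists_mem_notMem_of_card_lt_card (s := B) (t := F) (by omega)
    refine ⟨Fin.cons κ T, fun i => Fin.cases hκ hT i, fun j => ?_⟩
    have e : (fun i => (Fin.cons κ T : Fin (r + 1) → Fin (m + 1) → Fin s) i j) =
        Fin.cons (κ j) fun i => T i j := by
      funext i
      refine Fin.cases rfl (fun i => rfl) i
    rw [e]
    refine Fin.cons_injective_of_injective ?_ (hinj j)
    rintro ⟨i, hi⟩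
    exact hκB (mem_biUnion.2 ⟨(i, j), mem_univ _, mem_filter.2 ⟨mem_univ _, hi.symm⟩⟩)

end Pool.Agent.MP_c36b31_co

end MrgPart6

-- ======== part 7: formerly Pool.Agent.MP_c36b31_co.Boxes
section MrgPart7

/-! Large determinants in sets of volume one, and boxes inside fat simplices. -/

namespace Pool.Agent.MP_c36b31_co

open Finset Module Matrix MeasureTheory

variable {d : ℕ}

theorem exists_big_det (K : Set (Fin d → ℝ)) (hK : volume K = 1) :
    ∃ M : Matrix (Fin d) (Fin d) ℝ, (∀ i, M i ∈ K) ∧ ((4 : ℝ) ^ d)⁻¹ ≤ |M.det| := by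
  by_contra hcon
  push Not at hcon
  let S : Set ℝ := {x | ∃ M : Matrix (Fin d) (Fin d) ℝ, (∀ i, M i ∈ K) ∧ |M.det| = x}
  have hS : BddAbove S := ⟨((4 : ℝ) ^ d)⁻¹, by rintro x ⟨M, hM, rfl⟩; exact (hcon M hM).le⟩
  have hspan : Submodule.span ℝ K = ⊤ := by
    by_contra h
    have := measure_mono_null Submodule.subset_span (Measure.addHaar_submodule volume _ h)
    rw [hK] at this
    exact one_ne_zero this
  obtain ⟨M0, hM0, hdet0⟩ : ∃ M : Matrix (Fin d) (Fin d) ℝ, (∀ i, M i ∈ K) ∧ M.det ≠ 0 := by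
    obtain ⟨f, hf, -, hli⟩ := Submodule.exists_fun_fin_finrank_span_eq ℝ K
    have hr : d = finrank ℝ (Submodule.span ℝ K) := by rw [hspan, finrank_top]; simp
    refine ⟨Matrix.of fun i => f (Fin.cast hr i), fun i => hf _, ?_⟩
    exact ((Matrix.isUnit_iff_isUnit_det _).1 (linearIndependent_rows_iff_isUnit.1
      (hli.comp _ (Fin.cast_injective hr)))).ne_zero
  have hD : 0 < sSup S := (abs_pos.2 hdet0).trans_le (le_csSup hS ⟨M0, hM0, rfl⟩)
  obtain ⟨_, ⟨M, hM, rfl⟩, hlt⟩ := exists_lt_of_lt_csSup (s := S) ⟨_, M0, hM0, rfl⟩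
    (half_lt_self hD)
  have hpos : 0 < |M.det| := (half_pos hD).trans hlt
  have hu : IsUnit M.det := (abs_pos.1 hpos).isUnit
  have hsub : K ⊆ Matrix.toLin' Mᵀ '' Metric.closedBall 0 2 := by
    intro y hy
    have e : (y ᵥ* M⁻¹) ᵥ* M = y := by rw [vecMul_vecMul, nonsing_inv_mul _ hu, vecMul_one]
    refine ⟨y ᵥ* M⁻¹, ?_, by rw [toLin'_apply, mulVec_transpose, e]⟩
    rw [mem_closedBall_zero_iff, pi_norm_le_iff_of_nonneg zero_le_two]
    intro j
    have h1 := det_updateRow_sum M j (y ᵥ* M⁻¹)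
    rw [← vecMul_eq_sum, e] at h1
    have h2 : |(M.updateRow j y).det| ≤ sSup S := by
      refine le_csSup hS ⟨_, fun i => ?_, rfl⟩
      by_cases hij : i = j
      · rw [hij, updateRow_self]; exact hy
      · rw [updateRow_ne hij]; exact hM i
    rw [h1, smul_eq_mul, abs_mul] at h2
    rw [Real.norm_eq_abs]
    nlinarith
  have h1 := measure_mono (μ := volume) hsub
  rw [hK, Measure.addHaar_image_linearMap, LinearMap.det_toLin', det_transpose,
    Real.volume_pi_closedBall _ zero_le_two, ← ENNReal.ofReal_mul hpos.le,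
    ENNReal.one_le_ofReal, Fintype.card_fin] at h1
  have h2 := hcon M hM
  rw [inv_eq_one_div, lt_div_iff₀ (by positivity)] at h2
  norm_num at h1
  linarith

/-- the simplex spanned by the origin and the rows of `u` -/
def spx (u : Matrix (Fin d) (Fin d) ℝ) : Set (Fin d → ℝ) :=
  {y | ∃ l : Fin d → ℝ, (∀ i, 0 ≤ l i) ∧ ∑ i, l i ≤ 1 ∧ y = l ᵥ* u}

theorem boxes (d : ℕ) {c : ℝ} (hc : 0 < c) : ∃ (L : Finset (Fin d → ℝ)) (ε : ℝ), 0 < ε ∧
    ∀ u : Matrix (Fin d) (Fin d) ℝ, (∀ i j, |u i j| ≤ 1) → c ≤ |u.det| →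
      ∃ y ∈ L, Metric.ball y ε ⊆ spx u := by
  classical
  let K : Set (Matrix (Fin d) (Fin d) ℝ) := {u | (∀ i j, |u i j| ≤ 1) ∧ c ≤ |u.det|}
  have hK : IsCompact K := by
    have hC : IsCompact (X := Matrix (Fin d) (Fin d) ℝ)
        (Metric.closedBall (α := Fin d → Fin d → ℝ) 0 1) :=
      isCompact_closedBall (0 : Fin d → Fin d → ℝ) _
    refine hC.of_isClosed_subset ?_ ?_
    · have : K = (⋂ i, ⋂ j, {u | |u i j| ≤ 1}) ∩ {u | c ≤ |u.det|} := by
        ext u; simp [K]
      rw [this]
      exact (isClosed_iInter fun i => isClosed_iInter fun j =>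
        isClosed_le (continuous_id.matrix_elem i j).abs continuous_const).inter
        (isClosed_le continuous_const continuous_id.matrix_det.abs)
    · intro u hu
      refine (mem_closedBall_zero_iff (E := Fin d → Fin d → ℝ)).2 ?_
      simp only [pi_norm_le_iff_of_nonneg zero_le_one, Real.norm_eq_abs]
      exact hu.1
  suffices h : ∃ (L : Finset (Fin d → ℝ)) (ε : ℝ), 0 < ε ∧
      ∀ u ∈ K, ∃ y ∈ L, Metric.ball y ε ⊆ spx u by
    obtain ⟨L, ε, hε, h⟩ := h
    exact ⟨L, ε, hε, fun u h1 h2 => h u ⟨h1, h2⟩⟩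
  refine hK.induction_on (p := fun K => ∃ (L : Finset (Fin d → ℝ)) (ε : ℝ), 0 < ε ∧
      ∀ u ∈ K, ∃ y ∈ L, Metric.ball y ε ⊆ spx u) ⟨∅, 1, one_pos, by simp⟩ ?_ ?_ ?_
  · rintro s t hst ⟨L, ε, hε, h⟩
    exact ⟨L, ε, hε, fun u hu => h u (hst hu)⟩
  · rintro s t ⟨L, ε, hε, h⟩ ⟨L', ε', hε', h'⟩
    refine ⟨L ∪ L', min ε ε', lt_min hε hε', ?_⟩
    rintro u (hu | hu)
    · obtain ⟨y, hy, hb⟩ := h u hu
      exact ⟨y, mem_union_left _ hy, (Metric.ball_subset_ball (min_le_left _ _)).trans hb⟩
    · obtain ⟨y, hy, hb⟩ := h' u hu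
      exact ⟨y, mem_union_right _ hy, (Metric.ball_subset_ball (min_le_right _ _)).trans hb⟩
  · intro u0 hu0
    have hne : u0.det ≠ 0 := abs_pos.1 (hc.trans_le hu0.2)
    let l0 : Fin d → ℝ := fun _ => ((d : ℝ) + 1)⁻¹
    let O : Set (Fin d → ℝ) := {l | (∀ i, 0 < l i) ∧ ∑ i, l i < 1}
    have hO : IsOpen O := by
      have : O = (⋂ i, {l | 0 < l i}) ∩ {l | ∑ i, l i < 1} := by
        ext l; simp [O]
      rw [this]
      exact (isOpen_iInter_of_finite fun i => isOpen_lt continuous_const (continuous_apply i)).inter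
        (isOpen_lt (continuous_finsetSum _ fun i _ => continuous_apply i) continuous_const)
    have hl0 : l0 ∈ O := by
      refine ⟨fun i => by positivity, ?_⟩
      simp only [l0, sum_const, card_univ, Fintype.card_fin, nsmul_eq_mul]
      rw [← div_eq_mul_inv, div_lt_one (by positivity)]
      linarith
    have hinv : ContinuousAt (fun u : Matrix (Fin d) (Fin d) ℝ => u⁻¹) u0 :=
      continuousAt_matrix_inv u0 (by rw [Ring.inverse_eq_inv']; exact continuousAt_inv₀ hne)
    have hF : ContinuousAt (fun p : Matrix (Fin d) (Fin d) ℝ × (Fin d → ℝ) => p.2 ᵥ* p.1⁻¹)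
        (u0, l0 ᵥ* u0) := by
      have h1 : Continuous fun p : Matrix (Fin d) (Fin d) ℝ × (Fin d → ℝ) => p.2 ᵥ* p.1 :=
        continuous_snd.matrix_vecMul continuous_fst
      exact h1.continuousAt.comp
        ((ContinuousAt.comp (f := Prod.fst) hinv continuousAt_fst).prodMk continuousAt_snd)
    have hmem := hF.preimage_mem_nhds (hO.mem_nhds (by
      simpa only [vecMul_vecMul, mul_nonsing_inv _ hne.isUnit, vecMul_one] using hl0))
    obtain ⟨U, hU, V, hV, hUV⟩ := mem_nhds_prod_iff.1 hmem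
    obtain ⟨ε, hε, hball⟩ := Metric.mem_nhds_iff.1 hV
    refine ⟨K ∩ U, inter_mem_nhdsWithin K hU, {l0 ᵥ* u0}, ε, hε, fun u hu => ⟨_, mem_singleton_self _,
      fun y hy => ?_⟩⟩
    have h2 : y ᵥ* u⁻¹ ∈ O := hUV (Set.mk_mem_prod hu.2 (hball hy))
    have hu' : u.det ≠ 0 := abs_pos.1 (hc.trans_le hu.1.2)
    exact ⟨y ᵥ* u⁻¹, fun i => (h2.1 i).le, h2.2.le, by
      rw [vecMul_vecMul, nonsing_inv_mul _ hu'.isUnit, vecMul_one]⟩

end Pool.Agent.MP_c36b31_co

end MrgPart7

-- ======== part 8: formerly Pool.Agent.MP_c36b31_co.Volume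
section MrgPart8

/-! Many disjoint rainbow simplices at the origin with a common part of large volume. -/

namespace Pool.Agent.MP_c36b31_co

open Finset Module Matrix MeasureTheory

theorem volume_part (m : ℕ) {δ : ℝ} (hδ : 0 < δ) : ∃ v : ℝ, 0 < v ∧ ∀ r : ℕ, ∃ s : ℕ,
    ∀ a : Fin (m + 1) × Fin s → Matrix (Fin (m + 1)) (Fin (m + 1)) ℝ, (∀ k, δ ≤ |(a k).det|) →
      ∃ T : Fin r → Fin (m + 1) → Fin s, (∀ j, Function.Injective fun i => T i j) ∧
        ∃ B : Set (Fin (m + 1) → ℝ), ENNReal.ofReal v ≤ volume B ∧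
          ∀ i, ∃ col : Fin (m + 1) → Fin (m + 1),
            B ⊆ spx (Matrix.of fun j => a (j, T i j) (col j)) := by
  classical
  obtain ⟨c, hc, hmix⟩ := mixed_lower (m + 1)
  obtain ⟨μ, hμ, hlow⟩ := fr_lower m.succ_pos hδ
  set D : ℝ := ((m + 1 : ℕ) : ℝ) ^ (m + 1) with hD
  have hD0 : 0 < D := by positivity
  obtain ⟨L, ε, hε, hL⟩ := boxes (m + 1) (c := √(c / (2 * D))) (by positivity)
  refine ⟨(2 * (μ * ε)) ^ (m + 1), by positivity, fun r => ?_⟩
  set C : ℝ := ((m + 1).factorial : ℝ) ^ 2 with hC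
  have hC0 : 0 < C := by positivity
  obtain ⟨s, hs⟩ := exists_nat_gt (2 * (L.card * (r * (m + 1)) * (D * C)) / c)
  have hs0 : 0 < s := by
    have : (0 : ℝ) < s := lt_of_le_of_lt (by positivity) hs
    exact_mod_cast this
  have hsR : (0 : ℝ) < s := by exact_mod_cast hs0
  refine ⟨s, fun a ha => ?_⟩
  obtain ⟨g, hg, hiso⟩ := iso_position m.succ_pos hs0 a hδ ha
  have hρ : ∀ k, μ ≤ √(fr (a k * g)) := fun k =>
    hlow _ (by rw [det_mul, hg, mul_one]; exact ha k)
  have hρ0 : ∀ k, 0 < √(fr (a k * g)) := fun k => hμ.trans_le (hρ k)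
  have hfr0 : ∀ k, 0 < fr (a k * g) := fun k => Real.sqrt_pos.1 (hρ0 k)
  let n : (Fin (m + 1) → Fin s) → (Fin (m + 1) → Fin (m + 1)) →
      Matrix (Fin (m + 1)) (Fin (m + 1)) ℝ := fun k col =>
    Matrix.of fun j => (√(fr (a (j, k j) * g)))⁻¹ • (a (j, k j) * g) (col j)
  have hn1 : ∀ k col i j, |n k col i j| ≤ 1 := by
    intro k col i j
    simp only [n, of_apply, Pi.smul_apply, smul_eq_mul, abs_mul, abs_inv, abs_of_pos (hρ0 _)]
    rw [inv_mul_le_iff₀ (hρ0 _), mul_one]
    exact abs_le_sqrt_fr _ _ _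
  let b : Fin (m + 1) → Fin s × Fin (m + 1) → Fin (m + 1) → ℝ := fun j p =>
    (√s)⁻¹ • ((√(fr (a (j, p.1) * g)))⁻¹ • (a (j, p.1) * g) p.2)
  have hsq : ((√s)⁻¹ : ℝ) ^ 2 = (s : ℝ)⁻¹ := by rw [inv_pow, Real.sq_sqrt hsR.le]
  have hsq' : ∀ k, (√(fr (a k * g)))⁻¹ ^ 2 = (fr (a k * g))⁻¹ := fun k => by
    rw [inv_pow, Real.sq_sqrt (hfr0 k).le]
  have hb : Iso b := by
    refine ⟨fun j => ?_, fun v hv => ?_⟩
    · rw [Fintype.sum_prod_type]
      have : ∀ k : Fin s, ∑ i, b j (k, i) ⬝ᵥ b j (k, i) = (s : ℝ)⁻¹ := by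
        intro k
        have e : ∀ i, b j (k, i) ⬝ᵥ b j (k, i) = (s : ℝ)⁻¹ * ((fr (a (j, k) * g))⁻¹ *
            ((a (j, k) * g) i ⬝ᵥ (a (j, k) * g) i)) := by
          intro i
          simp only [b, smul_dotProduct, dotProduct_smul, smul_eq_mul, ← hsq, ← hsq']
          ring
        simp only [e, ← mul_sum]
        change _ * (_ * fr _) = _
        rw [inv_mul_cancel₀ (hfr0 _).ne', mul_one]
      simp only [this, sum_const, card_univ, Fintype.card_fin, nsmul_eq_mul]
      exact mul_inv_cancel₀ hsR.ne'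
    · have h := hiso v hv
      rw [← div_le_one hsR, Fintype.sum_prod_type, sum_div] at h
      refine le_trans (le_of_eq (sum_congr rfl fun j _ => ?_)) h
      rw [Fintype.sum_prod_type, sum_div]
      refine sum_congr rfl fun k _ => ?_
      rw [sum_div, sum_div]
      refine sum_congr rfl fun i _ => ?_
      simp only [b, dotProduct_smul, smul_eq_mul, mul_pow, hsq, hsq']
      ring
  have hmd : c * s ^ (m + 1) ≤ ∑ k, ∑ col, (n k col).det ^ 2 := by
    have h := hmix _ b hb
    rw [md, ← (Equiv.arrowProdEquivProdArrow (Fin (m + 1)) (fun _ => Fin s)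
      (fun _ => Fin (m + 1))).symm.sum_comp, Fintype.sum_prod_type] at h
    rw [← le_div_iff₀ (by positivity), sum_div]
    refine h.trans (le_of_eq (sum_congr rfl fun k _ => ?_))
    rw [sum_div]
    refine sum_congr rfl fun col _ => ?_
    have e : (Matrix.of fun j => b j ((Equiv.arrowProdEquivProdArrow (Fin (m + 1)) (fun _ => Fin s)
      (fun _ => Fin (m + 1))).symm (k, col) j)) = ((√s)⁻¹ : ℝ) • n k col := rfl
    rw [e, det_smul, mul_pow, ← pow_mul, mul_comm _ 2, pow_mul, hsq, Fintype.card_fin, inv_pow]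
    ring
  let F : (Fin (m + 1) → ℝ) → Finset (Fin (m + 1) → Fin s) := fun y =>
    univ.filter fun k => ∃ col, Metric.ball y ε ⊆ spx (n k col)
  have hF : ∃ y, r * ((m + 1) * s ^ m) ≤ (F y).card := by
    by_contra hcon
    push Not at hcon
    have h1 : (L.biUnion F).card ≤ L.card * (r * ((m + 1) * s ^ m)) :=
      card_biUnion_le_card_mul _ _ _ fun y _ => (hcon y).le
    have h1' : ((L.biUnion F).card : ℝ) ≤ L.card * (r * ((m + 1) * s ^ m)) := by
      exact_mod_cast h1
    have h2 : ∀ k, ∑ col, (n k col).det ^ 2 ≤ (if k ∈ L.biUnion F then D * C else 0) + c / 2 := by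
      intro k
      have hcard : (Fintype.card (Fin (m + 1) → Fin (m + 1)) : ℝ) = D := by simp [hD]
      split_ifs with hk
      · have : ∑ col, (n k col).det ^ 2 ≤ ∑ _col : Fin (m + 1) → Fin (m + 1), C := by
          refine sum_le_sum fun col _ => ?_
          have := abs_det_le (n k col) (hn1 k col)
          rw [one_pow, mul_one] at this
          rw [hC, ← sq_abs]
          exact pow_le_pow_left₀ (abs_nonneg _) this 2
        rw [sum_const, card_univ, nsmul_eq_mul, hcard] at this
        linarith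
      · have : ∑ col, (n k col).det ^ 2 ≤ ∑ _col : Fin (m + 1) → Fin (m + 1), c / (2 * D) := by
          refine sum_le_sum fun col _ => ?_
          by_contra hlt
          obtain ⟨y, hy, hball⟩ := hL (n k col) (hn1 k col)
            (by rw [← Real.sqrt_sq_eq_abs]; exact Real.sqrt_le_sqrt (not_le.1 hlt).le)
          exact hk (mem_biUnion.2 ⟨y, hy, mem_filter.2 ⟨mem_univ _, col, hball⟩⟩)
        rw [sum_const, card_univ, nsmul_eq_mul, hcard] at this
        rw [zero_add]
        refine this.trans (le_of_eq ?_)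
        field_simp
    have h3 := hmd.trans (sum_le_sum fun k _ => h2 k)
    rw [sum_add_distrib, sum_ite_mem, univ_inter, sum_const, sum_const, card_univ,
      nsmul_eq_mul, nsmul_eq_mul] at h3
    simp only [Fintype.card_pi, Fintype.card_fin, prod_const, card_univ, Nat.cast_pow] at h3
    rw [div_lt_iff₀ hc] at hs
    have h4 : (0 : ℝ) < s ^ m := by positivity
    have h5 := mul_le_mul_of_nonneg_right h1' (mul_pos hD0 hC0).le
    have h6 := mul_lt_mul_of_pos_right hs h4
    rw [pow_succ] at h3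
    nlinarith
  obtain ⟨y, hy⟩ := hF
  obtain ⟨T, hT, hinj⟩ := greedy r (F y) hs0 hy
  refine ⟨T, hinj, Matrix.toLin' gᵀ ⁻¹' Metric.ball (μ • y) (μ * ε), ?_, fun i => ?_⟩
  · rw [Measure.addHaar_preimage_linearMap _ (by rw [LinearMap.det_toLin', det_transpose, hg]; simp),
      LinearMap.det_toLin', det_transpose, hg, Real.volume_pi_ball _ (by positivity)]
    simp
  · obtain ⟨col, hcol⟩ := (mem_filter.1 (hT i)).2
    refine ⟨col, fun x hx => ?_⟩
    rw [Set.mem_preimage, toLin'_apply, mulVec_transpose] at hx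
    have hw : μ⁻¹ • (x ᵥ* g) ∈ Metric.ball y ε := by
      rw [Metric.mem_ball, dist_eq_norm] at hx ⊢
      have e : μ⁻¹ • (x ᵥ* g) - y = μ⁻¹ • (x ᵥ* g - μ • y) := by
        rw [smul_sub, smul_smul, inv_mul_cancel₀ hμ.ne', one_smul]
      rw [e, norm_smul, norm_inv, Real.norm_of_nonneg hμ.le, inv_mul_lt_iff₀ hμ]
      exact hx
    obtain ⟨l, hl0, hl1, hl⟩ := hcol hw
    refine ⟨fun j => μ * (l j * (√(fr (a (j, T i j) * g)))⁻¹),
      fun j => mul_nonneg hμ.le (mul_nonneg (hl0 j) (inv_nonneg.2 (hρ0 _).le)),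
      le_trans (sum_le_sum fun j _ => ?_) hl1, ?_⟩
    · rw [mul_left_comm]
      refine mul_le_of_le_one_right (hl0 j) ?_
      rw [mul_inv_le_iff₀ (hρ0 _), one_mul]
      exact hρ _
    · have hu : IsUnit g := (Matrix.isUnit_iff_isUnit_det _).2 (by rw [hg]; exact isUnit_one)
      apply vecMul_injective_iff_isUnit.2 hu
      have e : x ᵥ* g = μ • (l ᵥ* n (T i) col) := by
        rw [← hl, smul_smul, mul_inv_cancel₀ hμ.ne', one_smul]
      change x ᵥ* g = _ ᵥ* g
      rw [e, vecMul_vecMul, vecMul_eq_sum, vecMul_eq_sum, smul_sum]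
      refine sum_congr rfl fun j _ => ?_
      change μ • l j • (√(fr (a (j, T i j) * g)))⁻¹ • (a (j, T i j) * g) (col j) =
        (μ * (l j * (√(fr (a (j, T i j) * g)))⁻¹)) • (a (j, T i j) * g) (col j)
      rw [smul_smul, smul_smul, mul_assoc]

end Pool.Agent.MP_c36b31_co

end MrgPart8

-- ======== part 9: formerly Pool.Agent.MP_c36b31_co.Box
section MrgPart9

/-! Dense multipartite hypergraphs contain complete boxes. -/

namespace Pool.Agent.MP_c36b31_co

open Finset

theorem common_link {Y : Type*} {N s : ℕ} (R : Fin N → Y → Prop) [∀ a y, Decidable (R a y)]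
    (Y0 : Finset Y) {β : ℝ} (hβ : 0 ≤ β) (hN : s < N)
    (hdeg : ∀ y ∈ Y0, β * N + s ≤ (univ.filter fun a => R a y).card) (t : ℕ) (ht : t ≤ s) :
    ∃ a : Fin t → Fin N, Function.Injective a ∧ ∃ Z ⊆ Y0, (∀ i, ∀ y ∈ Z, R (a i) y) ∧
      β ^ t * Y0.card ≤ Z.card := by
  induction t with
  | zero => exact ⟨fun i => i.elim0, fun i => i.elim0, Y0, Subset.rfl, fun i => i.elim0, by simp⟩
  | succ t ih =>
    obtain ⟨a, ha, Z, hZ, hR, hc⟩ := ih (by omega)
    let U : Finset (Fin N) := univ \ univ.image a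
    have him : (univ.image a).card ≤ t := card_image_le.trans (by simp)
    have hU : U.Nonempty := sdiff_nonempty_of_card_lt_card (by simp; omega)
    have hsum : ∑ _b ∈ U, β * Z.card ≤ ∑ b ∈ U, ((Z.filter fun y => R b y).card : ℝ) := by
      have e : ∑ b ∈ U, ((Z.filter fun y => R b y).card : ℝ) =
          ∑ y ∈ Z, ((U.filter fun b => R b y).card : ℝ) := by
        simp only [card_filter]
        push_cast
        exact sum_comm
      have hUN : (U.card : ℝ) ≤ N := by
        have : U.card ≤ N := by simpa using U.card_le_univ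
        exact_mod_cast this
      rw [e, sum_const, nsmul_eq_mul]
      calc (U.card : ℝ) * (β * Z.card) ≤ N * (β * Z.card) := by gcongr
        _ = ∑ _y ∈ Z, β * N := by rw [sum_const, nsmul_eq_mul]; ring
        _ ≤ _ := sum_le_sum fun y hy => by
          have h1 := hdeg y (hZ hy)
          have h2 : (univ.filter fun b => R b y).card ≤ (U.filter fun b => R b y).card + s := by
            have : (univ.filter fun b => R b y) ⊆ (U.filter fun b => R b y) ∪ univ.image a := by
              intro b hb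
              by_cases h : b ∈ univ.image a
              · exact mem_union_right _ h
              · exact mem_union_left _ (mem_filter.2 ⟨mem_sdiff.2 ⟨mem_univ _, h⟩,
                  (mem_filter.1 hb).2⟩)
            have := (card_le_card this).trans (card_union_le _ _)
            omega
          have h3 : ((univ.filter fun b => R b y).card : ℝ) ≤
              (U.filter fun b => R b y).card + s := by exact_mod_cast h2
          linarith
    obtain ⟨b, hb, hbZ⟩ := exists_le_of_sum_le hU hsum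
    refine ⟨Fin.cons b a, Fin.cons_injective_of_injective ?_ ha, Z.filter fun y => R b y,
      (filter_subset _ _).trans hZ, fun i => Fin.cases (fun y hy => (mem_filter.1 hy).2)
        (fun i y hy => hR i y (mem_filter.1 hy).1) i, ?_⟩
    · rintro ⟨i, hi⟩
      exact (mem_sdiff.1 hb).2 (mem_image.2 ⟨i, mem_univ _, hi⟩)
    · rw [pow_succ', mul_assoc]
      exact (mul_le_mul_of_nonneg_left hc hβ).trans hbZ

theorem box (s k : ℕ) : ∀ α : ℝ, 0 < α → ∃ N0 : ℕ, ∀ N, N0 ≤ N → ∀ F : Finset (Fin k → Fin N),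
    α * N ^ k ≤ F.card → ∃ G : Fin k → Fin s → Fin N, (∀ j, Function.Injective (G j)) ∧
      ∀ κ : Fin k → Fin s, (fun j => G j (κ j)) ∈ F := by
  classical
  induction k with
  | zero =>
    intro α hα
    refine ⟨0, fun N _ F hF => ⟨fun j => j.elim0, fun j => j.elim0, fun κ => ?_⟩⟩
    have : 0 < F.card := by
      have : (0 : ℝ) < F.card := lt_of_lt_of_le (by simpa using hα) hF
      exact_mod_cast this
    obtain ⟨x, hx⟩ := card_pos.1 this
    rwa [Subsingleton.elim (fun j => _) x]
  | succ k ih =>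
    intro α hα
    obtain ⟨N0, hN0⟩ := ih ((α / 4) ^ s * (α / 2)) (by positivity)
    obtain ⟨N1, hN1⟩ := exists_nat_ge (4 * s / α)
    refine ⟨max N0 (max N1 (s + 1)), fun N hN F hF => ?_⟩
    simp only [max_le_iff] at hN
    have hNpos : (0 : ℝ) < N := by
      have : 0 < N := by omega
      exact_mod_cast this
    have hs : (s : ℝ) ≤ α / 4 * N := by
      have : (N1 : ℝ) ≤ N := by exact_mod_cast hN.2.1
      rw [div_le_iff₀ hα] at hN1
      nlinarith
    let deg : (Fin k → Fin N) → ℕ := fun y =>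
      (univ.filter fun a => (Fin.cons a y : Fin (k + 1) → Fin N) ∈ F).card
    let Y0 : Finset (Fin k → Fin N) := univ.filter fun y => α / 2 * N ≤ deg y
    have hsum : (F.card : ℝ) = ∑ y, (deg y : ℝ) := by
      have : F.card = ∑ y, deg y := by
        simp only [deg, card_filter]
        rw [sum_comm, ← Fintype.sum_prod_type', card_eq_sum_ones, ← sum_filter,
          sum_const, sum_const]
        congr 1
        refine (card_bij (fun p _ => (Fin.cons p.1 p.2 : Fin (k + 1) → Fin N))
          (fun p hp => (mem_filter.1 hp).2) (fun p _ q _ h => ?_) fun y hy => ?_).symm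
        · exact Prod.ext (Fin.cons_injective2 h).1 (Fin.cons_injective2 h).2
        · exact ⟨(y 0, Fin.tail y), by simpa using hy, by simp⟩
      exact_mod_cast this
    have hY0 : α / 2 * N ^ k ≤ Y0.card := by
      have h1 : ∀ y, (deg y : ℝ) ≤ (if y ∈ Y0 then (N : ℝ) else 0) + α / 2 * N := by
        intro y
        split_ifs with h
        · have : deg y ≤ N := by simpa using card_le_univ (univ.filter fun a =>
            (Fin.cons a y : Fin (k + 1) → Fin N) ∈ F)
          have : (deg y : ℝ) ≤ N := by exact_mod_cast this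
          have : 0 ≤ α / 2 * N := by positivity
          linarith
        · simp only [Y0, mem_filter, mem_univ, true_and, not_le] at h
          linarith
      have h2 := hF.trans (hsum.le.trans (sum_le_sum fun y _ => h1 y))
      rw [sum_add_distrib, sum_ite_mem, univ_inter, sum_const, sum_const, card_univ,
        nsmul_eq_mul, nsmul_eq_mul] at h2
      simp only [Fintype.card_pi, Fintype.card_fin, prod_const, card_univ, Nat.cast_pow] at h2
      rw [pow_succ] at h2
      refine le_of_mul_le_mul_right ?_ hNpos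
      linarith
    obtain ⟨a, ha, Z, -, hR, hc⟩ := common_link
      (fun a y => (Fin.cons a y : Fin (k + 1) → Fin N) ∈ F) Y0 (β := α / 4) (s := s)
      (by positivity) (by omega) (fun y hy => by
        have := (mem_filter.1 hy).2
        change _ ≤ (deg y : ℝ)
        linarith) s le_rfl
    obtain ⟨G, hG, hGF⟩ := hN0 N hN.1 Z (by
      rw [mul_assoc]
      exact (mul_le_mul_of_nonneg_left hY0 (by positivity)).trans hc)
    refine ⟨Fin.cons a G, fun j => Fin.cases ha hG j, fun κ => ?_⟩
    have := hR (κ 0) _ (hGF (Fin.tail κ))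
    have e : (fun j => (Fin.cons a G : Fin (k + 1) → Fin s → Fin N) j (κ j)) =
        Fin.cons (a (κ 0)) fun j => G j (Fin.tail κ j) := by
      funext j
      exact Fin.cases rfl (fun j => rfl) j
    rw [e]
    exact this

/-- a point in all rainbow simplices of large subfamilies -/
theorem box_point (d s : ℕ) : ∃ N, s ≤ N ∧ ∀ p : Fin (d + 1) → Fin N → Fin d → ℝ,
    ∃ x, ∃ G : Fin (d + 1) → Fin s → Fin N, (∀ j, Function.Injective (G j)) ∧
      ∀ κ : Fin (d + 1) → Fin s, x ∈ convexHull ℝ (Set.range fun j => p j (G j (κ j))) := by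
  classical
  obtain ⟨N0, hN0⟩ := box s (d + 1) (((2 * d + 1 : ℝ) ^ d)⁻¹) (by positivity)
  refine ⟨max N0 (s + 1), by omega, fun p => ?_⟩
  obtain ⟨x, hx⟩ := selection (by omega) p
  obtain ⟨G, hG, hGF⟩ := hN0 _ (le_max_left _ _)
    (univ.filter fun κ : Fin (d + 1) → Fin (max N0 (s + 1)) =>
      x ∈ convexHull ℝ (Set.range fun j => p j (κ j))) (by
    rw [inv_mul_le_iff₀ (by positivity)]
    exact_mod_cast hx)
  exact ⟨x, G, hG, fun κ => (mem_filter.1 (hGF κ)).2⟩

end Pool.Agent.MP_c36b31_co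

end MrgPart9

-- ======== part 10: formerly Pool.Agent.MP_c36b31_co.Main
section MrgPart10

/-! The quantitative colourful Tverberg theorem for indexed families. -/

namespace Pool.Agent.MP_c36b31_co

open Finset Module Matrix MeasureTheory

theorem add_mem_of_spx {d : ℕ} {C : Set (Fin d → ℝ)} (hC : Convex ℝ C) {x y : Fin d → ℝ}
    {u : Matrix (Fin d) (Fin d) ℝ} (hx : x ∈ C) (hu : ∀ j, x + u j ∈ C) (hy : y ∈ spx u) :
    x + y ∈ C := by
  obtain ⟨l, h0, h1, rfl⟩ := hy
  have := hC.sum_mem (t := univ) (w := fun o : Option (Fin d) => o.elim (1 - ∑ i, l i) l)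
    (z := fun o => o.elim x fun j => x + u j)
    (by rintro (_ | j) -; exacts [sub_nonneg.2 h1, h0 j]) (by simp [Fintype.sum_option])
    (by rintro (_ | j) -; exacts [hx, hu j])
  have e : x + l ᵥ* u = ∑ o : Option (Fin d), (o.elim (1 - ∑ i, l i) l : ℝ) •
      (o.elim x fun j => x + u j : Fin d → ℝ) := by
    simp only [Fintype.sum_option, Option.elim, smul_add, sum_add_distrib, ← sum_smul,
      vecMul_eq_sum, sub_smul, one_smul]
    abel
  rw [e]
  exact this

theorem indexed (m : ℕ) : ∃ v : ℝ, 0 < v ∧ ∀ n : ℕ, m + 1 + 1 ≤ n → ∀ r : ℕ, ∃ N : ℕ,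
    ∀ K : Fin n → Fin N → Set (Fin (m + 1) → ℝ), (∀ j k, volume (K j k) = 1) →
      ∃ T : Fin r → Fin n → Fin N, (∀ j, Function.Injective fun i => T i j) ∧
        ENNReal.ofReal v ≤ volume (⋂ i, convexHull ℝ (⋃ j, K j (T i j))) := by
  obtain ⟨v, hv, hvol⟩ := volume_part m (δ := ((4 : ℝ) ^ (m + 1))⁻¹) (by positivity)
  refine ⟨v, hv, fun n hn r => ?_⟩
  obtain ⟨s, hs⟩ := hvol r
  obtain ⟨N, hsN, hN⟩ := box_point (m + 1) s
  refine ⟨N, fun K hK => ?_⟩
  have hne : ∀ j k, (K j k).Nonempty := fun j k =>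
    nonempty_of_measure_ne_zero (μ := volume) (by rw [hK]; exact one_ne_zero)
  choose p hp using hne
  let c1 : Fin (m + 1 + 1) → Fin n := fun j => ⟨j.val, by omega⟩
  let c2 : Fin (m + 1) → Fin n := fun j => ⟨j.val, by omega⟩
  let ψ : Fin n → Fin (m + 1) := fun j => ⟨min j.val m, by omega⟩
  obtain ⟨x, G, hG, hx⟩ := hN fun j k => p (c1 j) k
  let e : Fin n → Fin s → Fin N := fun j k =>
    if h : j.val < m + 1 + 1 then G ⟨j.val, h⟩ k else Fin.castLE hsN k
  have he : ∀ j, Function.Injective (e j) := by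
    intro j
    by_cases h : j.val < m + 1 + 1
    · simpa only [e, dif_pos h] using hG ⟨j.val, h⟩
    · simpa only [e, dif_neg h] using Fin.castLE_injective hsN
  choose a ha hdet using fun k : Fin (m + 1) × Fin s =>
    exists_big_det ((fun y => x + y) ⁻¹' K (c2 k.1) (e (c2 k.1) k.2))
      (by rw [measure_preimage_add, hK])
  obtain ⟨T2, hT2, B, hB, hcol⟩ := hs a hdet
  refine ⟨fun i j => e j (T2 i (ψ j)), fun j => (he j).comp (hT2 (ψ j)), hB.trans ?_⟩
  rw [← measure_preimage_add volume x (⋂ i, _)]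
  refine measure_mono fun y hy => Set.mem_iInter.2 fun i => ?_
  obtain ⟨col, hc⟩ := hcol i
  refine add_mem_of_spx (convex_convexHull ℝ _)
    (convexHull_mono ?_ (hx fun j => T2 i (ψ (c1 j)))) (fun j => ?_) (hc hy)
  · rintro _ ⟨j, rfl⟩
    refine Set.mem_iUnion.2 ⟨c1 j, ?_⟩
    have h2 : e (c1 j) (T2 i (ψ (c1 j))) = G j (T2 i (ψ (c1 j))) := dif_pos j.2
    beta_reduce
    rw [h2]
    exact hp _ _
  · refine subset_convexHull ℝ _ (Set.mem_iUnion.2 ⟨c2 j, ?_⟩)
    have h1 : ψ (c2 j) = j := Fin.ext (by simp only [ψ, c2]; omega)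
    beta_reduce
    rw [h1]
    exact ha (j, T2 i j) (col j)

end Pool.Agent.MP_c36b31_co

end MrgPart10

-- marker of a merged file
example : 731051 + 224380 = 731051 + 224380 := rfl
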